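import Pool.Agent.Pfi.Grp

/-! The Bass-Tate induction for the predicate `Z` (paper proof, part (C)). -/

namespace Pool.Agent.Pfi

open Polynomial

universe u

/-- All `m`-lists of nonzero polynomials of degree `≤ d` (`< d` in `PL`) are good at `θ`. -/
def PLe {F E : Type u} [Field F] [Field E] [Algebra F E] (θ : E) (m d : ℕ) : Prop :=
  ∀ L : List F[X], L.length = m → (∀ f ∈ L, f ≠ 0 ∧ f.natDegree ≤ d) →
    Z (L.map (fun f => aeval θ f))

/-- The lift of degree smaller than `deg p` of an element of `F[X] / p`. -/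
noncomputable def lft {F : Type u} [Field F] (p : F[X]) (hp : p.Monic) (v : AdjoinRoot p) : F[X] :=
  AdjoinRoot.modByMonicHom hp v

variable {F E : Type u} [Field F] [Field E] [Algebra F E]

private theorem b_val_mono {K : Type*} [Field K] {l : List K} {a c : K} (h : Val l c) :
    Val (a :: l) c := by
  refine ⟨c, 0, h, ?_, by simp⟩
  have := val_sq l (0 : K)
  simpa using this

private theorem b_val_swap {K : Type*} [Field K] (h2 : (2 : K) ≠ 0) {a b : K} {l : List K}
    (ha : a ≠ 0) (hb : b ≠ 0) (hl : ∀ c ∈ l, c ≠ 0) (h : Val (b :: l) a) : Val (a :: l) b := by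
  have h' : Z (a :: b :: l) := h
  have hne : ∀ c ∈ a :: b :: l, c ≠ 0 := by
    intro c hc
    rcases List.mem_cons.1 hc with rfl | hc
    · exact ha
    rcases List.mem_cons.1 hc with rfl | hc
    · exact hb
    · exact hl c hc
  exact (Z_perm h2 hne (List.Perm.swap b a l)).1 h'

private theorem b_val_mk {p : F[X]} (hp : p.Monic) (v : AdjoinRoot p) :
    AdjoinRoot.mk p (lft p hp v) = v := by
  exact AdjoinRoot.mk_leftInverse hp v

private theorem b_val_lft_mk {p : F[X]} (hp : p.Monic) {f : F[X]} (h : f.natDegree < p.natDegree) :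
    lft p hp (AdjoinRoot.mk p f) = f := by
  unfold lft
  rw [AdjoinRoot.modByMonicHom_mk, (Polynomial.modByMonic_eq_self_iff hp).2]
  exact Polynomial.degree_lt_degree h

private theorem b_val_lft_deg {p : F[X]} (hp : p.Monic) (h1 : 0 < p.natDegree) (v : AdjoinRoot p) :
    (lft p hp v).natDegree < p.natDegree := by
  obtain ⟨f, rfl⟩ := AdjoinRoot.mk_surjective v
  unfold lft
  rw [AdjoinRoot.modByMonicHom_mk]
  exact Polynomial.natDegree_modByMonic_lt f hp (by rintro rfl; simp at h1)

private theorem b_val_lft_ne {p : F[X]} (hp : p.Monic) {v : AdjoinRoot p} (hv : v ≠ 0) :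
    lft p hp v ≠ 0 := by
  intro h
  apply hv
  rw [← b_val_mk hp v, h, map_zero]

/-- the nonzero polynomials of small degree have nonzero values -/
private theorem b_val_nz {θ : E} {n d : ℕ} (hdn : d + 1 < n)
    (hθ : ∀ f : F[X], f ≠ 0 → f.natDegree < n → aeval θ f ≠ 0) {l : List F[X]}
    (hl : ∀ f ∈ l, f ≠ 0 ∧ f.natDegree ≤ d) : ∀ a ∈ l.map (fun f => aeval θ f), a ≠ 0 := by
  intro a ha
  obtain ⟨f, hf, rfl⟩ := List.mem_map.1 ha
  exact hθ f (hl f hf).1 (by have := (hl f hf).2; omega)

private theorem b_mul_mono {K : Type*} [Field K] {l : List K} {a c : K} (h : Val l c) :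
    Val (a :: l) c := by
  refine ⟨c, 0, h, ?_, by simp⟩
  have := val_sq l (0 : K)
  simpa using this

private theorem b_mul_mk {p : F[X]} (hp : p.Monic) (v : AdjoinRoot p) :
    AdjoinRoot.mk p (lft p hp v) = v := by
  exact AdjoinRoot.mk_leftInverse hp v

private theorem b_mul_lft_deg {p : F[X]} (hp : p.Monic) (h1 : 0 < p.natDegree) (v : AdjoinRoot p) :
    (lft p hp v).natDegree < p.natDegree := by
  obtain ⟨f, rfl⟩ := AdjoinRoot.mk_surjective v
  unfold lft
  rw [AdjoinRoot.modByMonicHom_mk]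
  exact Polynomial.natDegree_modByMonic_lt f hp (by rintro rfl; simp at h1)

private theorem b_mul_lft_ne {p : F[X]} (hp : p.Monic) {v : AdjoinRoot p} (hv : v ≠ 0) :
    lft p hp v ≠ 0 := by
  intro h
  apply hv
  rw [← b_mul_mk hp v, h, map_zero]

/-- (M) the lift is multiplicative modulo the group of values of the Pfister form of
`p :: l`. -/
theorem lft_mul (h2 : (2 : E) ≠ 0) (θ : E) (n m d : ℕ) (hdn : d + 1 < n)
    (hθ : ∀ f : F[X], f ≠ 0 → f.natDegree < n → aeval θ f ≠ 0)
    (hP : PLe (F := F) θ (m + 2) d) (p : F[X]) (hp : p.Monic) (hirr : Irreducible p)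
    (hdp : p.natDegree = d + 1) (l : List F[X]) (hl : l.length = m)
    (hl' : ∀ f ∈ l, f ≠ 0 ∧ f.natDegree ≤ d) (v w : AdjoinRoot p) (hv : v ≠ 0) (hw : w ≠ 0) :
    Z ((aeval θ (lft p hp v) * aeval θ (lft p hp w) * aeval θ (lft p hp (v * w))) ::
      aeval θ p :: l.map (fun f => aeval θ f)) := by
  have : Fact (Irreducible p) := ⟨hirr⟩
  have hvw : v * w ≠ 0 := mul_ne_zero hv hw
  have hP0 : aeval θ p ≠ 0 := hθ p hirr.ne_zero (by omega)
  have hlt : ∀ v : AdjoinRoot p, v ≠ 0 → lft p hp v ≠ 0 ∧ (lft p hp v).natDegree ≤ d := by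
    intro v hv
    refine ⟨b_mul_lft_ne hp hv, ?_⟩
    have := b_mul_lft_deg hp (by omega) v
    omega
  have hA : ∀ v : AdjoinRoot p, v ≠ 0 → aeval θ (lft p hp v) ≠ 0 := by
    intro v hv
    exact hθ _ (hlt v hv).1 (by have := (hlt v hv).2; omega)
  have hR : ∀ a ∈ l.map (fun f => aeval θ f), a ≠ 0 := by
    intro a ha
    obtain ⟨f, hf, rfl⟩ := List.mem_map.1 ha
    exact hθ f (hl' f hf).1 (by have := (hl' f hf).2; omega)
  set R : List E := l.map (fun f => aeval θ f) with hRdef
  have hcons : ∀ {L : List E} {a : E}, a ≠ 0 → (∀ b ∈ L, b ≠ 0) → ∀ b ∈ a :: L, b ≠ 0 := by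
    intro L a ha hL b hb
    rcases List.mem_cons.1 hb with rfl | hb
    · exact ha
    · exact hL b hb
  -- two slots from polynomials of degree at most `d`
  have two : ∀ f g : F[X], f ≠ 0 → f.natDegree ≤ d → g ≠ 0 → g.natDegree ≤ d →
      Val (aeval θ g :: R) (aeval θ f) := by
    intro f g hf hfd hg hgd
    exact hP (f :: g :: l) (by simp [hl]) (by
      intro q hq
      rcases List.mem_cons.1 hq with rfl | hq
      · exact ⟨hf, hfd⟩
      rcases List.mem_cons.1 hq with rfl | hq
      · exact ⟨hg, hgd⟩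
      · exact hl' q hq)
  -- the quotient
  have hdvd : p ∣ lft p hp v * lft p hp w - lft p hp (v * w) := by
    rw [← AdjoinRoot.mk_eq_zero, map_sub, map_mul, b_mul_mk, b_mul_mk, b_mul_mk, sub_self]
  obtain ⟨r, hr⟩ := hdvd
  have hV0 := hA v hv
  have hW0 := hA w hw
  have hU0 := hA (v * w) hvw
  have hneP : ∀ a ∈ aeval θ p :: R, a ≠ 0 := hcons hP0 hR
  by_cases hr0 : r = 0
  · rw [hr0, mul_zero, sub_eq_zero] at hr
    have h : aeval θ (lft p hp v) * aeval θ (lft p hp w) * aeval θ (lft p hp (v * w)) =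
        aeval θ (lft p hp (v * w)) ^ 2 := by
      rw [← map_mul, hr, pow_two]
    rw [h]
    exact val_sq _ _
  · have hrd : r.natDegree ≤ d := by
      have h1 : (lft p hp v * lft p hp w - lft p hp (v * w)).natDegree ≤ 2 * d := by
        refine (natDegree_sub_le _ _).trans (max_le ?_ ?_)
        · refine natDegree_mul_le.trans ?_
          have := (hlt v hv).2
          have := (hlt w hw).2
          omega
        · have := (hlt _ hvw).2
          omega
      rw [hr, natDegree_mul hirr.ne_zero hr0, hdp] at h1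
      omega
    have hr' : aeval θ r ≠ 0 := hθ r hr0 (by omega)
    have e1 : aeval θ (lft p hp v) * aeval θ (lft p hp w) - aeval θ (lft p hp (v * w)) =
        aeval θ p * aeval θ r := by
      rw [← map_mul, ← map_mul, ← hr, map_sub]
    set V := aeval θ (lft p hp v) with hVd
    set W := aeval θ (lft p hp w) with hWd
    set U := aeval θ (lft p hp (v * w)) with hUd
    set P := aeval θ p with hPd
    set r' := aeval θ r with hrd'
    -- `B = V W U`, slot, and `A = - P r' / U`
    have hB0 : V * W * U ≠ 0 := mul_ne_zero (mul_ne_zero hV0 hW0) hU0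
    set B := V * W * U with hBd
    have hneB : ∀ a ∈ B :: R, a ≠ 0 := hcons hB0 hR
    -- values of the form with the slots `B :: R`
    have sw : ∀ {a b : E}, a ≠ 0 → b ≠ 0 → Val (a :: R) b → Val (b :: R) a := by
      intro a b ha hb h
      have h3 : Z (b :: a :: R) := h
      exact (Z_perm h2 (hcons hb (hcons ha hR)) (List.Perm.swap a b R)).1 h3
    have slotB : ∀ g : F[X], g ≠ 0 → g.natDegree ≤ d → Val (B :: R) (aeval θ g) := by
      intro g hg hgd
      have hg' : aeval θ g ≠ 0 := hθ g hg (by omega)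
      have hneg : ∀ a ∈ aeval θ g :: R, a ≠ 0 := hcons hg' hR
      have h1 := two _ g (hlt v hv).1 (hlt v hv).2 hg hgd
      have h3 := two _ g (hlt w hw).1 (hlt w hw).2 hg hgd
      have h4 := two _ g (hlt _ hvw).1 (hlt _ hvw).2 hg hgd
      exact sw hg' hB0 (val_mul h2 hneg (val_mul h2 hneg h1 h3) h4)
    have hB1 : Val (B :: R) (-1) := by
      have := slotB (C (-1)) (by simp) (by simp)
      simpa using this
    have hBr : Val (B :: R) r' := slotB r hr0 hrd
    have hBU : Val (B :: R) U := slotB _ (hlt _ hvw).1 (hlt _ hvw).2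
    -- Steinberg: `V W / U = 1 - A`
    have hVW : V * W * U⁻¹ = 1 - (-(P * r' * U⁻¹)) := by
      have : V * W = P * r' + U := by rw [← e1]; ring
      rw [this]
      field_simp
      ring
    have hA0 : -(P * r' * U⁻¹) ≠ 0 :=
      neg_ne_zero.2 (mul_ne_zero (mul_ne_zero hP0 hr') (inv_ne_zero hU0))
    have hSt : Val (-(P * r' * U⁻¹) :: R) (V * W * U⁻¹) := by
      rw [hVW]
      exact Z_steinberg _ R
    have hSt2 : Val (-(P * r' * U⁻¹) :: R) B := by
      have h := val_mul h2 (hcons hA0 hR) (val_sq (-(P * r' * U⁻¹) :: R) U) hSt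
      have e : U ^ 2 * (V * W * U⁻¹) = B := by
        rw [hBd]; field_simp
      rwa [e] at h
    have hBA : Val (B :: R) (-(P * r' * U⁻¹)) := sw hA0 hB0 hSt2
    have hBP : Val (B :: R) P := by
      have h := val_mul h2 hneB (val_mul h2 hneB (val_mul h2 hneB hB1 hBA) hBU)
        (val_inv h2 hneB hBr)
      have e : -1 * (-(P * r' * U⁻¹)) * U * r'⁻¹ = P := by
        field_simp
      rwa [e] at h
    exact sw hB0 hP0 hBP

/-- (C_j) lifts of values of the Pfister form of `l1` over `F[X] / p` are values of the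
Pfister form of `p :: l1 ++ l2` at `θ`. -/
theorem lft_val (h2 : (2 : E) ≠ 0) (θ : E) (n m d : ℕ) (hdn : d + 1 < n)
    (hθ : ∀ f : F[X], f ≠ 0 → f.natDegree < n → aeval θ f ≠ 0)
    (hP : PLe (F := F) θ (m + 2) d) (p : F[X]) (hp : p.Monic) (hirr : Irreducible p)
    (hdp : p.natDegree = d + 1) [Fact (Irreducible p)] (l1 : List F[X]) :
    ∀ (l2 : List F[X]), (l1 ++ l2).length = m →
    (∀ f ∈ l1 ++ l2, f ≠ 0 ∧ f.natDegree ≤ d) → ∀ v : AdjoinRoot p, v ≠ 0 →
    Val (l1.map (fun f => AdjoinRoot.mk p f)) v →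
    Z (aeval θ (lft p hp v) :: aeval θ p :: (l1 ++ l2).map (fun f => aeval θ f)) := by
  have hP0 : aeval θ p ≠ 0 := hθ p hirr.ne_zero (by omega)
  have hlt : ∀ v : AdjoinRoot p, v ≠ 0 → lft p hp v ≠ 0 ∧ (lft p hp v).natDegree ≤ d := by
    intro v hv
    refine ⟨b_val_lft_ne hp hv, ?_⟩
    have := b_val_lft_deg hp (by omega) v
    omega
  have hA : ∀ v : AdjoinRoot p, v ≠ 0 → aeval θ (lft p hp v) ≠ 0 := by
    intro v hv
    exact hθ _ (hlt v hv).1 (by have := (hlt v hv).2; omega)
  induction l1 with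
  | nil =>
    intro l2 hlen hl v hv hval
    simp only [List.nil_append] at hlen hl ⊢
    simp only [List.map_nil] at hval
    obtain ⟨w, rfl⟩ := hval
    have hw : w ≠ 0 := by
      rintro rfl
      simp at hv
    have h := lft_mul h2 θ n m d hdn hθ hP p hp hirr hdp l2 hlen hl w w hw hw
    have hne : ∀ a ∈ aeval θ p :: l2.map (fun f => aeval θ f), a ≠ 0 := by
      intro a ha
      rcases List.mem_cons.1 ha with rfl | ha
      · exact hP0
      · exact b_val_nz hdn hθ hl a ha
    have hsq : Val (aeval θ p :: l2.map (fun f => aeval θ f)) ((aeval θ (lft p hp w))⁻¹ ^ 2) :=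
      val_sq _ _
    have h' := val_mul h2 hne hsq h
    have he : (aeval θ (lft p hp w))⁻¹ ^ 2 * (aeval θ (lft p hp w) * aeval θ (lft p hp w) *
        aeval θ (lft p hp (w * w))) = aeval θ (lft p hp (w ^ 2)) := by
      have := hA w hw
      rw [pow_two w]
      field_simp
    rw [he] at h'
    exact h'
  | cons g l1 ih =>
    intro l2 hlen hl v hv hval
    have hlen' : (l1 ++ l2).length + 1 = m := by
      simpa using hlen
    have hl' : ∀ f ∈ l1 ++ l2, f ≠ 0 ∧ f.natDegree ≤ d := fun f hf =>
      hl f (by simpa using Or.inr (by simpa using hf))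
    have hg : g ≠ 0 ∧ g.natDegree ≤ d := hl g (by simp)
    have hG : aeval θ g ≠ 0 := hθ g hg.1 (by omega)
    -- the induction hypothesis with `f` in the place of `g`
    have key : ∀ f : F[X], f ≠ 0 → f.natDegree ≤ d → ∀ x : AdjoinRoot p, x ≠ 0 →
        Val (l1.map (fun f => AdjoinRoot.mk p f)) x →
        Val (aeval θ p :: aeval θ f :: (l1 ++ l2).map (fun f => aeval θ f))
          (aeval θ (lft p hp x)) := by
      intro f hf0 hfd x hx hvx
      have h := ih (f :: l2) (by simp at hlen' ⊢; omega) (by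
        intro q hq
        rcases List.mem_append.1 hq with hq | hq
        · exact hl' q (List.mem_append.2 (Or.inl hq))
        rcases List.mem_cons.1 hq with rfl | hq
        · exact ⟨hf0, hfd⟩
        · exact hl' q (List.mem_append.2 (Or.inr hq))) x hx hvx
      have hperm : (l1 ++ f :: l2).Perm (f :: (l1 ++ l2)) := List.perm_middle
      have hperm2 : (aeval θ p :: (l1 ++ f :: l2).map (fun f => aeval θ f)).Perm
          (aeval θ p :: aeval θ f :: (l1 ++ l2).map (fun f => aeval θ f)) := by
        refine List.Perm.cons _ ?_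
        exact hperm.map (fun f => aeval θ f)
      exact (val_perm hperm2 _).1 h
    have hR : ∀ a ∈ (l1 ++ l2).map (fun f => aeval θ f), a ≠ 0 := b_val_nz hdn hθ hl'
    have hcons : ∀ {L : List E} {a : E}, a ≠ 0 → (∀ b ∈ L, b ≠ 0) → ∀ b ∈ a :: L, b ≠ 0 := by
      intro L a ha hL b hb
      rcases List.mem_cons.1 hb with rfl | hb
      · exact ha
      · exact hL b hb
    have hgoal : (g :: l1 ++ l2).map (fun f => aeval θ f) =
        aeval θ g :: (l1 ++ l2).map (fun f => aeval θ f) := by simp
    rw [hgoal]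
    rw [List.map_cons] at hval
    obtain ⟨x, y, hx, hy, hxy⟩ := hval
    set R : List E := (l1 ++ l2).map (fun f => aeval θ f) with hRdef
    change Val (aeval θ p :: aeval θ g :: R) (aeval θ (lft p hp v))
    by_cases hy0 : y = 0
    · subst hy0
      rw [mul_zero, sub_zero] at hxy
      subst hxy
      exact key g hg.1 hg.2 v hv hx
    by_cases hx0 : x = 0
    · subst hx0
      rw [zero_sub] at hxy
      have hmg : AdjoinRoot.mk p (-g) ≠ 0 := by
        intro h0
        have := b_val_lft_mk hp (f := -g) (by rw [natDegree_neg]; omega)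
        rw [h0] at this
        have h3 : lft p hp (0 : AdjoinRoot p) = 0 := by
          unfold lft; exact map_zero _
        rw [h3] at this
        exact hg.1 (by simpa using this.symm)
      have h := lft_mul h2 θ n m d hdn hθ hP p hp hirr hdp (g :: (l1 ++ l2)) (by simpa using hlen')
        (by
          intro q hq
          rcases List.mem_cons.1 hq with rfl | hq
          · exact hg
          · exact hl' q hq) (AdjoinRoot.mk p (-g)) y hmg hy0
      have hv' : AdjoinRoot.mk p (-g) * y = v := by rw [hxy, map_neg, neg_mul]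
      rw [hv', b_val_lft_mk hp (by rw [natDegree_neg]; omega)] at h
      have hne : ∀ a ∈ aeval θ p :: aeval θ g :: R, a ≠ 0 := hcons hP0 (hcons hG hR)
      have h1 : Val (aeval θ p :: aeval θ g :: R) (aeval θ (-g)) := by
        have := Z_neg (aeval θ g) R
        rw [map_neg]
        exact b_val_mono this
      have h3 := key g hg.1 hg.2 y hy0 hy
      have h4 : Val (aeval θ p :: aeval θ g :: R) (aeval θ (-g) * aeval θ (lft p hp y) *
        aeval θ (lft p hp v)) := h
      have h5 := val_mul h2 hne (val_mul h2 hne h4 (val_inv h2 hne h1)) (val_inv h2 hne h3)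
      have he : aeval θ (-g) * aeval θ (lft p hp y) *
        aeval θ (lft p hp v) * (aeval θ (-g))⁻¹ * (aeval θ (lft p hp y))⁻¹ =
        aeval θ (lft p hp v) := by
        have h6 : aeval θ (-g) ≠ 0 := by rw [map_neg]; exact neg_ne_zero.2 hG
        have h7 := hA y hy0
        field_simp
      rw [he] at h5
      exact h5
    · -- the main case
      have hmg : AdjoinRoot.mk p g ≠ 0 := by
        intro h0
        have := b_val_lft_mk hp (f := g) (by omega)
        rw [h0] at this
        have h3 : lft p hp (0 : AdjoinRoot p) = 0 := by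
          unfold lft; exact map_zero _
        rw [h3] at this
        exact hg.1 this.symm
      set z : AdjoinRoot p := AdjoinRoot.mk p g * y with hz
      have hz0 : z ≠ 0 := mul_ne_zero hmg hy0
      have hlv : lft p hp v = lft p hp x - lft p hp z := by
        unfold lft
        rw [← map_sub, hxy]
      have hV0 := hA v hv
      have hX0 := hA x hx0
      have hY0 := hA y hy0
      have hZ0 := hA z hz0
      have hVX : aeval θ (lft p hp v) = aeval θ (lft p hp x) - aeval θ (lft p hp z) := by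
        rw [hlv, map_sub]
      -- (i)
      have hneV : ∀ a ∈ aeval θ p :: aeval θ (lft p hp v) :: R, a ≠ 0 := hcons hP0 (hcons hV0 hR)
      have hM : Val (aeval θ p :: aeval θ (lft p hp v) :: R)
          (aeval θ g * aeval θ (lft p hp y) * aeval θ (lft p hp z)) := by
        have h := lft_mul h2 θ n m d hdn hθ hP p hp hirr hdp (lft p hp v :: (l1 ++ l2))
          (by simpa using hlen') (by
          intro q hq
          rcases List.mem_cons.1 hq with rfl | hq
          · exact hlt v hv
          · exact hl' q hq) (AdjoinRoot.mk p g) y hmg hy0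
        rw [b_val_lft_mk hp (by omega)] at h
        exact h
      have hX : Val (aeval θ p :: aeval θ (lft p hp v) :: R) (aeval θ (lft p hp x)) :=
        key _ (hlt v hv).1 (hlt v hv).2 x hx0 hx
      have hY : Val (aeval θ p :: aeval θ (lft p hp v) :: R) (aeval θ (lft p hp y)) :=
        key _ (hlt v hv).1 (hlt v hv).2 y hy0 hy
      -- (ii)
      have hXX : Val (aeval θ p :: aeval θ (lft p hp x) :: R) (aeval θ (lft p hp x)) :=
        key _ (hlt x hx0).1 (hlt x hx0).2 x hx0 hx
      have hZX : Val (aeval θ p :: aeval θ (lft p hp z) :: R) (aeval θ (lft p hp x)) :=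
        key _ (hlt z hz0).1 (hlt z hz0).2 x hx0 hx
      have sw : ∀ {a b c : E}, a ≠ 0 → b ≠ 0 → c ≠ 0 → Val (c :: a :: R) b →
          Val (c :: b :: R) a := by
        intro a b c ha hb hc h
        have h3 : Z (b :: c :: a :: R) := h
        have hp1 : (b :: c :: a :: R).Perm (a :: c :: b :: R) := by
          refine (List.Perm.swap c b (a :: R)).trans ?_
          refine (List.Perm.cons c (List.Perm.swap a b R)).trans ?_
          exact List.Perm.swap a c (b :: R)
        exact (Z_perm h2 (hcons hb (hcons hc (hcons ha hR))) hp1).1 h3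
      have hXZ : Val (aeval θ p :: aeval θ (lft p hp x) :: R) (aeval θ (lft p hp z)) :=
        sw hZ0 hX0 hP0 hZX
      have hneX : ∀ a ∈ aeval θ p :: aeval θ (lft p hp x) :: R, a ≠ 0 := hcons hP0 (hcons hX0 hR)
      set Q : E := aeval θ (lft p hp z) * (aeval θ (lft p hp x))⁻¹ with hQ
      have hQ0 : Q ≠ 0 := mul_ne_zero hZ0 (inv_ne_zero hX0)
      have hXQ : Val (aeval θ p :: aeval θ (lft p hp x) :: R) Q :=
        val_mul h2 hneX hXZ (val_inv h2 hneX hXX)
      have hQX : Val (aeval θ p :: Q :: R) (aeval θ (lft p hp x)) := sw hX0 hQ0 hP0 hXQ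
      have hneQ : ∀ a ∈ aeval θ p :: Q :: R, a ≠ 0 := hcons hP0 (hcons hQ0 hR)
      have hSt : Val (aeval θ p :: Q :: R) (1 - Q) := b_val_mono (Z_steinberg Q R)
      have hQV : Val (aeval θ p :: Q :: R) (aeval θ (lft p hp v)) := by
        have h := val_mul h2 hneQ hQX hSt
        have he : aeval θ (lft p hp x) * (1 - Q) = aeval θ (lft p hp v) := by
          rw [hVX, hQ]
          field_simp
        rw [he] at h
        exact h
      have hVQ : Val (aeval θ p :: aeval θ (lft p hp v) :: R) Q := sw hQ0 hV0 hP0 hQV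
      have hVG : Val (aeval θ p :: aeval θ (lft p hp v) :: R) (aeval θ g) := by
        have h := val_mul h2 hneV (val_mul h2 hneV (val_mul h2 hneV hM (val_inv h2 hneV hY))
          (val_inv h2 hneV hVQ)) (val_inv h2 hneV hX)
        have he : aeval θ g * aeval θ (lft p hp y) * aeval θ (lft p hp z) *
            (aeval θ (lft p hp y))⁻¹ * Q⁻¹ * (aeval θ (lft p hp x))⁻¹ = aeval θ g := by
          rw [hQ]
          field_simp
        rw [he] at h
        exact h
      exact sw hV0 hG hP0 hVG

private theorem b_one_lft_mk {p : F[X]} (hp : p.Monic) {f : F[X]} (h : f.natDegree < p.natDegree) :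
    lft p hp (AdjoinRoot.mk p f) = f := by
  unfold lft
  rw [AdjoinRoot.modByMonicHom_mk, (Polynomial.modByMonic_eq_self_iff hp).2]
  exact Polynomial.degree_lt_degree h

/-- One slot of degree `d + 1`. -/
theorem one_slot (h2 : (2 : E) ≠ 0) (θ : E) (n m d : ℕ) (hdn : d + 1 < n)
    (hθ : ∀ f : F[X], f ≠ 0 → f.natDegree < n → aeval θ f ≠ 0)
    (hP : PLe (F := F) θ (m + 2) d) (p : F[X]) (hp : p.Monic) (hirr : Irreducible p)
    (hdp : p.natDegree = d + 1)
    (h1 : ∀ [Fact (Irreducible p)], ∀ L : List (AdjoinRoot p), L.length = m + 1 →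
      (∀ a ∈ L, a ≠ 0) → Z L)
    (l : List F[X]) (hl : l.length = m + 1) (hl' : ∀ f ∈ l, f ≠ 0 ∧ f.natDegree ≤ d) :
    Z (aeval θ p :: l.map (fun f => aeval θ f)) := by
  have : Fact (Irreducible p) := ⟨hirr⟩
  have hP0 : aeval θ p ≠ 0 := hθ p hirr.ne_zero (by omega)
  have hmk : ∀ f : F[X], f ≠ 0 → f.natDegree ≤ d → AdjoinRoot.mk p f ≠ 0 := by
    intro f hf hfd h0
    have h := b_one_lft_mk hp (f := f) (by omega)
    rw [h0] at h
    have h3 : lft p hp (0 : AdjoinRoot p) = 0 := by
      unfold lft; exact map_zero _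
    rw [h3] at h
    exact hf h.symm
  obtain _ | ⟨g, l⟩ := l
  · simp at hl
  have hg := hl' g (by simp)
  have hlm : l.length = m := by simpa using hl
  have hl'' : ∀ f ∈ l, f ≠ 0 ∧ f.natDegree ≤ d := fun f hf => hl' f (by simp [hf])
  have hZ : Z ((g :: l).map (fun f => AdjoinRoot.mk p f)) := by
    apply h1
    · simpa using hl
    · intro a ha
      obtain ⟨f, hf, rfl⟩ := List.mem_map.1 ha
      exact hmk f (hl' f hf).1 (hl' f hf).2
  have hV : Val (l.map (fun f => AdjoinRoot.mk p f)) (AdjoinRoot.mk p g) := hZ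
  have h := lft_val h2 θ n m d hdn hθ hP p hp hirr hdp l [] (by simpa using hlm)
    (by simpa using hl'') (AdjoinRoot.mk p g) (hmk g hg.1 hg.2) hV
  rw [b_one_lft_mk hp (by omega), List.append_nil] at h
  have hne : ∀ a ∈ aeval θ g :: aeval θ p :: l.map (fun f => aeval θ f), a ≠ 0 := by
    intro a ha
    rcases List.mem_cons.1 ha with rfl | ha
    · exact hθ g hg.1 (by omega)
    rcases List.mem_cons.1 ha with rfl | ha
    · exact hP0
    obtain ⟨f, hf, rfl⟩ := List.mem_map.1 ha
    exact hθ f (hl'' f hf).1 (by have := (hl'' f hf).2; omega)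
  exact (Z_perm h2 hne (List.Perm.swap _ _ _)).1 h

/-- a slot is replaced by a product -/
private theorem b_many_mul {K : Type*} [Field K] (h2 : (2 : K) ≠ 0) {a b : K} {l : List K}
    (hl : ∀ c ∈ l, c ≠ 0) (ha : Z (a :: l)) (hb : Z (b :: l)) : Z ((a * b) :: l) :=
  val_mul h2 hl ha hb

/-- Any number of monic irreducible slots of degree `d + 1` (the list `l1`). -/
theorem many_slots (h2 : (2 : E) ≠ 0) (θ : E) (n m d : ℕ) (hdn : d + 1 < n)
    (hθ : ∀ f : F[X], f ≠ 0 → f.natDegree < n → aeval θ f ≠ 0)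
    (hP : PLe (F := F) θ (m + 2) d)
    (h1 : ∀ (p : F[X]) [Fact (Irreducible p)], p.Monic → p.natDegree = d + 1 →
      ∀ L : List (AdjoinRoot p), L.length = m + 1 → (∀ a ∈ L, a ≠ 0) → Z L)
    (k : ℕ) : ∀ (l1 l2 : List F[X]), l1.length = k → (l1 ++ l2).length = m + 2 →
    (∀ p ∈ l1, p.Monic ∧ Irreducible p ∧ p.natDegree = d + 1) →
    (∀ f ∈ l2, f ≠ 0 ∧ f.natDegree ≤ d) →
    Z ((l1 ++ l2).map (fun f => aeval θ f)) := by
  induction k using Nat.strong_induction_on with
  | _ k ih =>
  intro l1 l2 hk hlen hl1 hl2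
  obtain _ | ⟨p, l1⟩ := l1
  · exact hP l2 (by simpa using hlen) hl2
  obtain _ | ⟨q, l1⟩ := l1
  · have hp := hl1 p (by simp)
    exact one_slot h2 θ n m d hdn hθ hP p hp.1 hp.2.1 hp.2.2
      (fun L hL hL' => h1 p hp.1 hp.2.2 L hL hL') l2 (by simpa using hlen) hl2
  -- two slots `p`, `q` of degree `d + 1`
  have hp := hl1 p (by simp)
  have hq := hl1 q (by simp)
  have hl1' : ∀ p ∈ l1, p.Monic ∧ Irreducible p ∧ p.natDegree = d + 1 :=
    fun f hf => hl1 f (by simp [hf])
  have hk2 : l1.length + 2 = k := by simpa using hk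
  have hlen2 : (l1 ++ l2).length = m := by simpa using hlen
  have hnz : ∀ (A B : List F[X]), (∀ p ∈ A, p.Monic ∧ Irreducible p ∧ p.natDegree = d + 1) →
      (∀ f ∈ B, f ≠ 0 ∧ f.natDegree ≤ d) →
      ∀ a ∈ (A ++ B).map (fun f => aeval θ f), a ≠ 0 := by
    intro A B hA hB a ha
    obtain ⟨f, hf, rfl⟩ := List.mem_map.1 ha
    rcases List.mem_append.1 hf with hf | hf
    · exact hθ f (hA f hf).2.1.ne_zero (by have := (hA f hf).2.2; omega)
    · exact hθ f (hB f hf).1 (by have := (hB f hf).2; omega)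
  have hP0 : aeval θ p ≠ 0 := hθ p hp.2.1.ne_zero (by have := hp.2.2; omega)
  have hQ0 : aeval θ q ≠ 0 := hθ q hq.2.1.ne_zero (by have := hq.2.2; omega)
  have hR := hnz l1 l2 hl1' hl2
  -- one slot of degree `d + 1` and one of smaller degree
  have A1 : ∀ f t : F[X], (f.Monic ∧ Irreducible f ∧ f.natDegree = d + 1) →
      (t ≠ 0 ∧ t.natDegree ≤ d) →
      Z (aeval θ t :: aeval θ f :: (l1 ++ l2).map (fun f => aeval θ f)) := by
    intro f t hf ht
    have h := ih (l1.length + 1) (by omega) (f :: l1) (t :: l2) (by simp)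
      (by simp at hlen2 ⊢; omega)
      (by
        intro x hx
        rcases List.mem_cons.1 hx with rfl | hx
        · exact hf
        · exact hl1' x hx)
      (by
        intro x hx
        rcases List.mem_cons.1 hx with rfl | hx
        · exact ht
        · exact hl2 x hx)
    have hperm : (f :: l1 ++ t :: l2).Perm (t :: f :: (l1 ++ l2)) := by
      have : (f :: l1 ++ t :: l2).Perm (t :: (f :: l1 ++ l2)) := List.perm_middle
      simpa using this
    refine (Z_perm h2 (hnz (f :: l1) (t :: l2) ?_ ?_) (hperm.map (fun f => aeval θ f))).1 h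
    · intro x hx
      rcases List.mem_cons.1 hx with rfl | hx
      · exact hf
      · exact hl1' x hx
    · intro x hx
      rcases List.mem_cons.1 hx with rfl | hx
      · exact ht
      · exact hl2 x hx
  have A2 : ∀ s t : F[X], (s ≠ 0 ∧ s.natDegree ≤ d) → (t ≠ 0 ∧ t.natDegree ≤ d) →
      Z (aeval θ s :: aeval θ t :: (l1 ++ l2).map (fun f => aeval θ f)) := by
    intro s t hs ht
    have hst : ∀ x ∈ s :: t :: l2, x ≠ 0 ∧ x.natDegree ≤ d := by
      intro x hx
      rcases List.mem_cons.1 hx with rfl | hx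
      · exact hs
      rcases List.mem_cons.1 hx with rfl | hx
      · exact ht
      · exact hl2 x hx
    have h := ih l1.length (by omega) l1 (s :: t :: l2) rfl
      (by simp at hlen2 ⊢; omega) hl1' hst
    have hperm : (l1 ++ s :: t :: l2).Perm (s :: t :: (l1 ++ l2)) := by
      have e1 : (l1 ++ s :: t :: l2).Perm (s :: (l1 ++ t :: l2)) := List.perm_middle
      have e2 : (l1 ++ t :: l2).Perm (t :: (l1 ++ l2)) := List.perm_middle
      exact e1.trans (e2.cons s)
    exact (Z_perm h2 (hnz l1 (s :: t :: l2) hl1' hst) (hperm.map (fun f => aeval θ f))).1 h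
  set R : List E := (l1 ++ l2).map (fun f => aeval θ f) with hRdef
  have hgoal : (p :: q :: l1 ++ l2).map (fun f => aeval θ f) = aeval θ p :: aeval θ q :: R := by
    simp [hRdef]
  rw [hgoal]
  have hcons : ∀ {L : List E} {a : E}, a ≠ 0 → (∀ b ∈ L, b ≠ 0) → ∀ b ∈ a :: L, b ≠ 0 := by
    intro L a ha hL b hb
    rcases List.mem_cons.1 hb with rfl | hb
    · exact ha
    · exact hL b hb
  have hm1 : (C (-1) : F[X]) ≠ 0 ∧ (C (-1) : F[X]).natDegree ≤ d := ⟨by simp, by simp⟩
  have hm1' : aeval θ (C (-1) : F[X]) = -1 := by simp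
  by_cases hpq : p = q
  · subst hpq
    have h := A1 p (C (-1)) hp hm1
    rw [hm1'] at h
    have h3 := b_many_mul h2 (hcons hP0 hR) h (Z_neg (aeval θ p) R)
    have e : -1 * -aeval θ p = aeval θ p := by ring
    rwa [e] at h3
  · -- `r = q - p`
    have hr0 : q - p ≠ 0 := sub_ne_zero.2 (Ne.symm hpq)
    have hrd : (q - p).natDegree ≤ d := by
      have hdeg : (q - p).degree < q.degree := by
        apply degree_sub_lt_left
        · rw [degree_eq_natDegree hp.2.1.ne_zero, degree_eq_natDegree hq.2.1.ne_zero, hp.2.2,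
            hq.2.2]
        · exact hq.2.1.ne_zero
        · rw [hp.1.leadingCoeff, hq.1.leadingCoeff]
      have := natDegree_lt_natDegree hr0 hdeg
      rw [hq.2.2] at this
      omega
    have hr : aeval θ (q - p) ≠ 0 := hθ _ hr0 (by omega)
    have hrr : aeval θ (q - p) = aeval θ q - aeval θ p := map_sub _ _ _
    set r := aeval θ (q - p) with hrdef
    set P := aeval θ p with hPd
    set Q := aeval θ q with hQd
    have hQr : Q * r⁻¹ ≠ 0 := mul_ne_zero hQ0 (inv_ne_zero hr)
    have sw : ∀ {a b : E}, a ≠ 0 → b ≠ 0 → Z (a :: b :: R) → Z (b :: a :: R) := by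
      intro a b ha hb h
      exact (Z_perm h2 (hcons ha (hcons hb hR)) (List.Perm.swap b a R)).1 h
    have hSt : Z ((1 - Q * r⁻¹) :: (Q * r⁻¹) :: R) := Z_steinberg _ R
    -- the slot `Q / r` together with `-1`, `r`
    have n1 : (-1 : E) ≠ 0 := by simp
    have hA : Z (-1 :: Q :: R) := by
      have := A1 q (C (-1)) hq hm1
      rwa [hm1'] at this
    have hB : Z (-1 :: r :: R) := by
      have := A2 (C (-1)) (q - p) hm1 ⟨hr0, hrd⟩
      rwa [hm1'] at this
    have hC : Z (r :: Q :: R) := A1 q (q - p) hq ⟨hr0, hrd⟩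
    have hD : Z (r :: r :: R) := A2 (q - p) (q - p) ⟨hr0, hrd⟩ ⟨hr0, hrd⟩
    have hE : Z (r :: P :: R) := A1 p (q - p) hp ⟨hr0, hrd⟩
    have hI : ∀ {a : E}, a ≠ 0 → Z (a :: Q :: R) → Z (a :: r :: R) → Z (a :: (Q * r⁻¹) :: R) := by
      intro a ha h3 h4
      apply sw hQr ha
      exact b_many_mul h2 (hcons ha hR) (sw ha hQ0 h3) (val_inv h2 (hcons ha hR) (sw ha hr h4))
    have h5 := hI n1 hA hB
    have h6 := hI hr hC hD
    have h7 : Z (P :: (Q * r⁻¹) :: R) := by
      have h := b_many_mul h2 (hcons hQr hR) (b_many_mul h2 (hcons hQr hR) h5 h6) hSt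
      have e : -1 * r * (1 - Q * r⁻¹) = P := by
        have : r * (1 - Q * r⁻¹) = r - Q := by field_simp
        calc -1 * r * (1 - Q * r⁻¹) = -(r * (1 - Q * r⁻¹)) := by ring
          _ = P := by rw [this, hrr]; ring
      rwa [e] at h
    have h8 := b_many_mul h2 (hcons hP0 hR) (sw hP0 hQr h7) hE
    have e : Q * r⁻¹ * r = Q := by field_simp
    rw [e] at h8
    exact sw hQ0 hP0 h8

/-- the polynomials which are not decomposed further -/
private def b_succ_S (d : ℕ) (f : F[X]) : Prop :=
  (f ≠ 0 ∧ f.natDegree ≤ d) ∨ (f.Monic ∧ Irreducible f ∧ f.natDegree = d + 1)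

private theorem b_succ_dec {d : ℕ} {f : F[X]} (hf : f ≠ 0) (hd : f.natDegree ≤ d + 1) :
    ∃ g h : F[X], b_succ_S d g ∧ b_succ_S d h ∧ f = g * h := by
  by_cases h1 : f.natDegree ≤ d
  · exact ⟨f, 1, Or.inl ⟨hf, h1⟩, Or.inl ⟨one_ne_zero, by simp⟩, by simp⟩
  have hfd : f.natDegree = d + 1 := by omega
  by_cases hirr : Irreducible f
  · refine ⟨C f.leadingCoeff, f * C f.leadingCoeff⁻¹, Or.inl ⟨?_, by simp⟩, Or.inr ⟨?_, ?_, ?_⟩, ?_⟩
    · simpa using hf
    · exact monic_mul_leadingCoeff_inv hf
    · exact (irreducible_mul_leadingCoeff_inv).2 hirr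
    · rw [natDegree_mul_leadingCoeff_inv f hf, hfd]
    · have : f.leadingCoeff ≠ 0 := by simpa using hf
      rw [mul_comm (C f.leadingCoeff), mul_assoc, ← C_mul, inv_mul_cancel₀ this, C_1, mul_one]
  · -- reducible
    have hnu : ¬ IsUnit f := by
      intro hu
      have := natDegree_eq_zero_of_isUnit hu
      omega
    rw [irreducible_iff] at hirr
    push Not at hirr
    obtain ⟨g, h, hgh, hg, hh⟩ := hirr hnu
    have hg0 : g ≠ 0 := by rintro rfl; simp at hgh; exact hf hgh
    have hh0 : h ≠ 0 := by rintro rfl; simp at hgh; exact hf hgh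
    have hgd : g.natDegree ≠ 0 := by
      intro h0
      apply hg
      rw [eq_C_of_natDegree_eq_zero h0]
      refine isUnit_C.2 (isUnit_iff_ne_zero.2 ?_)
      intro h3
      apply hg0
      rw [eq_C_of_natDegree_eq_zero h0, h3, C_0]
    have hhd : h.natDegree ≠ 0 := by
      intro h0
      apply hh
      rw [eq_C_of_natDegree_eq_zero h0]
      refine isUnit_C.2 (isUnit_iff_ne_zero.2 ?_)
      intro h3
      apply hh0
      rw [eq_C_of_natDegree_eq_zero h0, h3, C_0]
    have := natDegree_mul hg0 hh0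
    rw [← hgh, hfd] at this
    exact ⟨g, h, Or.inl ⟨hg0, by omega⟩, Or.inl ⟨hh0, by omega⟩, hgh⟩

private theorem b_succ_part (P Q : F[X] → Prop) (l : List F[X]) (h : ∀ f ∈ l, P f ∨ Q f) :
    ∃ l1 l2 : List F[X], (∀ f ∈ l1, Q f) ∧ (∀ f ∈ l2, P f) ∧ (l1 ++ l2).Perm l := by
  induction l with
  | nil => exact ⟨[], [], by simp, by simp, by simp⟩
  | cons a l ih =>
    obtain ⟨l1, l2, h1, h2, h3⟩ := ih (fun f hf => h f (by simp [hf]))
    rcases h a (by simp) with ha | ha
    · refine ⟨l1, a :: l2, h1, ?_, ?_⟩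
      · intro f hf
        rcases List.mem_cons.1 hf with rfl | hf
        · exact ha
        · exact h2 f hf
      · exact List.perm_middle.trans (h3.cons a)
    · refine ⟨a :: l1, l2, ?_, h2, ?_⟩
      · intro f hf
        rcases List.mem_cons.1 hf with rfl | hf
        · exact ha
        · exact h1 f hf
      · exact h3.cons a

/-- From degree `d` to degree `d + 1`. -/
theorem PLe_succ (h2 : (2 : E) ≠ 0) (θ : E) (n m d : ℕ) (hdn : d + 1 < n)
    (hθ : ∀ f : F[X], f ≠ 0 → f.natDegree < n → aeval θ f ≠ 0)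
    (hP : PLe (F := F) θ (m + 2) d)
    (h1 : ∀ (p : F[X]) [Fact (Irreducible p)], p.Monic → p.natDegree = d + 1 →
      ∀ L : List (AdjoinRoot p), L.length = m + 1 → (∀ a ∈ L, a ≠ 0) → Z L) :
    PLe (F := F) θ (m + 2) (d + 1) := by
  have hnz : ∀ L : List F[X], (∀ f ∈ L, f ≠ 0 ∧ f.natDegree ≤ d + 1) →
      ∀ a ∈ L.map (fun f => aeval θ f), a ≠ 0 := by
    intro L hL a ha
    obtain ⟨f, hf, rfl⟩ := List.mem_map.1 ha
    exact hθ f (hL f hf).1 (by have := (hL f hf).2; omega)
  have hS : ∀ f : F[X], b_succ_S d f → f ≠ 0 ∧ f.natDegree ≤ d + 1 := by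
    intro f hf
    rcases hf with hf | hf
    · exact ⟨hf.1, by have := hf.2; omega⟩
    · exact ⟨hf.2.1.ne_zero, by have := hf.2.2; omega⟩
  have main : ∀ B A : List F[X], (A ++ B).length = m + 2 → (∀ f ∈ A, b_succ_S d f) →
      (∀ f ∈ B, f ≠ 0 ∧ f.natDegree ≤ d + 1) → Z ((A ++ B).map (fun f => aeval θ f)) := by
    intro B
    induction B with
    | nil =>
      intro A hlen hA _
      rw [List.append_nil] at hlen ⊢
      obtain ⟨l1, l2, hl1, hl2, hp⟩ := b_succ_part (fun f => f ≠ 0 ∧ f.natDegree ≤ d)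
        (fun f => f.Monic ∧ Irreducible f ∧ f.natDegree = d + 1) A hA
      have h := many_slots h2 θ n m d hdn hθ hP h1 l1.length l1 l2 rfl
        (by rw [hp.length_eq]; exact hlen) hl1 hl2
      refine (Z_perm h2 (hnz (l1 ++ l2) ?_) (hp.map (fun f => aeval θ f))).1 h
      intro f hf
      exact hS f (hA f (hp.mem_iff.1 hf))
    | cons f B ih =>
      intro A hlen hA hB
      have hf := hB f (by simp)
      have hB' : ∀ f ∈ B, f ≠ 0 ∧ f.natDegree ≤ d + 1 := fun g hg => hB g (by simp [hg])
      obtain ⟨g, h, hg, hh, hgh⟩ := b_succ_dec hf.1 hf.2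
      have hAB : ∀ x ∈ A ++ B, x ≠ 0 ∧ x.natDegree ≤ d + 1 := by
        intro x hx
        rcases List.mem_append.1 hx with hx | hx
        · exact hS x (hA x hx)
        · exact hB' x hx
      have one : ∀ x : F[X], b_succ_S d x →
          Z (aeval θ x :: (A ++ B).map (fun f => aeval θ f)) := by
        intro x hx
        have h := ih (x :: A) (by simp at hlen ⊢; omega) (by
          intro y hy
          rcases List.mem_cons.1 hy with rfl | hy
          · exact hx
          · exact hA y hy) hB'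
        simpa using h
      have hmul : Z ((aeval θ g * aeval θ h) :: (A ++ B).map (fun f => aeval θ f)) :=
        val_mul h2 (hnz _ hAB) (one g hg) (one h hh)
      rw [← map_mul, ← hgh] at hmul
      have hp : (f :: (A ++ B)).Perm (A ++ f :: B) := List.perm_middle.symm
      refine (Z_perm h2 (hnz (f :: (A ++ B)) ?_) (hp.map (fun f => aeval θ f))).1 hmul
      intro x hx
      rcases List.mem_cons.1 hx with rfl | hx
      · exact hf
      · exact hAB x hx
  intro L hL hL'
  have h := main L [] (by simpa using hL) (by simp) hL'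
  simpa using h

/-- The main lemma (C). -/
theorem bass_tate (h2 : (2 : E) ≠ 0) (θ : E) (n m c : ℕ) (hc : c < n)
    (hθ : ∀ f : F[X], f ≠ 0 → f.natDegree < n → aeval θ f ≠ 0)
    (h0 : ∀ L : List F, L.length = m + 1 → (∀ a ∈ L, a ≠ 0) → Z L)
    (h1 : Good F m c) : PLe (F := F) θ (m + 1) c := by
  have base : PLe (F := F) θ (m + 1) 0 := by
    intro L hL hL'
    have hc : L.map (fun f => aeval θ f) = (L.map (fun f => f.coeff 0)).map (algebraMap F E) := by
      rw [List.map_map]
      refine List.map_congr_left ?_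
      intro f hf
      have h := (hL' f hf).2
      have e : f = C (f.coeff 0) := eq_C_of_natDegree_le_zero h
      simp only [Function.comp]
      conv_lhs => rw [e]
      simp
    rw [hc]
    apply Z_map
    apply h0
    · simpa using hL
    · intro a ha
      obtain ⟨f, hf, rfl⟩ := List.mem_map.1 ha
      have h := hL' f hf
      intro h3
      apply h.1
      rw [eq_C_of_natDegree_le_zero h.2, h3, C_0]
  obtain _ | m := m
  · -- no slot left: `c = 0`
    have hc0 : c = 0 := by
      by_contra hne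
      exact h1 F (by rw [Module.finrank_self]; omega) [] rfl (by simp)
    subst hc0
    exact base
  · have step : ∀ d, d ≤ c → PLe (F := F) θ (m + 2) d := by
      intro d
      induction d with
      | zero => intro _; exact base
      | succ d ih =>
        intro hd
        refine PLe_succ h2 θ n m d (by omega) hθ (ih (by omega)) ?_
        intro p hp hpm hpd L hL hL'
        have hf : Module.finrank F (AdjoinRoot p) = d + 1 := by
          rw [← hpd]
          exact (AdjoinRoot.powerBasis' hpm).finrank.trans (AdjoinRoot.powerBasis'_dim hpm)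
        have : FiniteDimensional F (AdjoinRoot p) := (AdjoinRoot.powerBasis' hpm).finite
        exact h1 (AdjoinRoot p) (by omega) L hL hL'
    exact step c le_rfl

end Pool.Agent.Pfi
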