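import Mathlib

/-!
Pfister forms over finite extensions (MP_420cd4_al), definitions.

`Val l c`: `c` is a value (possibly `0`) of the Pfister form of the list of slots `l`,
that is, of the tensor product of the forms `x ^ 2 - a * y ^ 2`, `a ∈ l`.
`Z (a :: l)`: `a` is a value of the Pfister form of `l`, equivalently (see `Grp`) the Pfister
form of `a :: l` is isotropic.
-/

namespace Pool.Agent.Pfi

universe u

/-- Every diagonal quadratic form in more than `u` variables is isotropic. -/
def HU (F : Type*) [Field F] (u : ℕ) : Prop :=
  ∀ k : ℕ, u < k → ∀ c : Fin k → F, ∃ x : Fin k → F, x ≠ 0 ∧ ∑ i, c i * x i ^ 2 = 0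

/-- Values of the Pfister form with the slots `l`. -/
def Val {K : Type*} [Field K] : List K → K → Prop
  | [], c => ∃ x, c = x ^ 2
  | a :: l, c => ∃ x y, Val l x ∧ Val l y ∧ c = x - a * y

/-- The Pfister form with the slots of the list is isotropic (for nonzero slots). -/
def Z {K : Type*} [Field K] : List K → Prop
  | [] => False
  | a :: l => Val l a

/-- All `m`-fold Pfister forms over all extensions of `F` of degree at most `c` are isotropic. -/
def Good (F : Type u) [Field F] (m c : ℕ) : Prop :=
  ∀ (K : Type u) [Field K] [Algebra F K] [FiniteDimensional F K], Module.finrank F K ≤ c →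
    ∀ L : List K, L.length = m → (∀ a ∈ L, a ≠ 0) → Z L

end Pool.Agent.Pfi
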