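import Pool.Agent.Pfi.Slot

/-! The recursion step for all extensions (paper proof, part (E)). -/

namespace Pool.Agent.Pfi

open Polynomial Module

universe u

variable {F : Type u} [Field F]

private theorem e_two {F : Type u} [Field F] (h2 : (2 : F) ≠ 0) (K : Type u) [Field K] [Algebra F K] :
    (2 : K) ≠ 0 := by
  have h1 : algebraMap F K 2 = 2 := map_ofNat (algebraMap F K) 2
  rw [← h1]
  exact fun hc => h2 ((map_eq_zero (algebraMap F K)).1 hc)

private theorem e_list {F K : Type u} [Field F] [Field K] [Algebra F K] (q : ℕ) [ExpChar F q]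
    [IsPurelyInseparable F K] : ∀ L : List K, ∃ N : ℕ, ∀ a ∈ L, ∀ M, N ≤ M → a ^ q ^ M ∈ (algebraMap F K).range := by
  intro L
  induction L with
  | nil => exact ⟨0, fun a ha => by simp at ha⟩
  | cons b L ih =>
    obtain ⟨N, hN⟩ := ih
    obtain ⟨n, hn⟩ := IsPurelyInseparable.pow_mem F q b
    refine ⟨max N n, fun a ha M hM => ?_⟩
    rcases List.mem_cons.1 ha with rfl | ha
    · have h1 : n ≤ M := (le_max_right _ _).trans hM
      obtain ⟨k, rfl⟩ := Nat.exists_eq_add_of_le h1
      rw [pow_add, pow_mul]
      exact pow_mem hn _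
    · exact hN a ha M ((le_max_left _ _).trans hM)

private theorem e_lift {F K : Type u} [Field F] [Field K] [Algebra F K] (e : ℕ) : ∀ L : List K, (∀ a ∈ L, a ≠ 0) →
    (∀ a ∈ L, a ^ e ∈ (algebraMap F K).range) →
    ∃ L' : List F, L'.length = L.length ∧ (∀ a ∈ L', a ≠ 0) ∧ L'.map (algebraMap F K) = L.map (fun a => a ^ e) := by
  intro L
  induction L with
  | nil =>
    intro _ _
    exact ⟨[], rfl, fun a ha => by simp at ha, rfl⟩
  | cons b L ih =>
    intro h0 hr
    obtain ⟨L', h1, h2, h3⟩ := ih (fun a ha => h0 a (List.mem_cons_of_mem _ ha))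
      (fun a ha => hr a (List.mem_cons_of_mem _ ha))
    obtain ⟨c, hc⟩ := hr b List.mem_cons_self
    refine ⟨c :: L', by rw [List.length_cons, List.length_cons, h1], fun a ha => ?_, ?_⟩
    · rcases List.mem_cons.1 ha with rfl | ha
      · intro h4
        rw [h4, map_zero] at hc
        exact pow_ne_zero e (h0 b List.mem_cons_self) hc.symm
      · exact h2 a ha
    · rw [List.map_cons, List.map_cons, h3, hc]

/-- Reduction to separable extensions: `K` is purely inseparable over the separable closure of
`F` in `K`. -/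
theorem Z_of_sep (h2 : (2 : F) ≠ 0) (K : Type u) [Field K] [Algebra F K] [FiniteDimensional F K]
    (m : ℕ) (h : ∀ L : List (separableClosure F K), L.length = m → (∀ a ∈ L, a ≠ 0) → Z L)
    (L : List K) (hL : L.length = m) (hL' : ∀ a ∈ L, a ≠ 0) : Z L := by
  have h2K : (2 : K) ≠ 0 := e_two h2 K
  have h2S : (2 : separableClosure F K) ≠ 0 := e_two h2 (separableClosure F K)
  obtain ⟨q, hq⟩ := ExpChar.exists (separableClosure F K)
  have hodd : Odd q := by
    rcases hq with _ | hp
    · exact odd_one
    · rcases hp.eq_two_or_odd' with h | h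
      · exfalso
        subst h
        have h3 : ((2 : ℕ) : separableClosure F K) = 0 := CharP.cast_eq_zero _ 2
        exact h2S (by exact_mod_cast h3)
      · exact h
  obtain ⟨N, hN⟩ := e_list (F := separableClosure F K) (K := K) q L
  obtain ⟨k, hk⟩ := hodd.pow (n := N)
  obtain ⟨L', h1, h3, h4⟩ := e_lift (F := separableClosure F K) (K := K) (q ^ N) L hL' (fun a ha => hN a ha N le_rfl)
  have h5 : Z (L'.map (algebraMap (separableClosure F K) K)) := Z_map _ (h L' (h1.trans hL) h3)
  rw [h4] at h5
  refine Z_map_odd_pow h2K hL' k ?_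
  rw [← hk]
  exact h5

/-- Simple extensions. -/
theorem Z_of_simple (h2 : (2 : F) ≠ 0) {u0 : ℕ} (hu : HU F u0) (m c : ℕ)
    (hum : u0 < 2 ^ (m + 1)) (hG : Good F m c) (K : Type u) [Field K] [Algebra F K]
    [FiniteDimensional F K] (θ : K) (hθ : IntermediateField.adjoin F {θ} = ⊤)
    (hc : c < finrank F K)
    (hN : (finrank F K - 1 - c) * (finrank F K - c) * u0 < 2 ^ (m + 1) * finrank F K)
    (L : List K) (hL : L.length = m + 1) (hL' : ∀ a ∈ L, a ≠ 0) : Z L := by
  have h2K : (2 : K) ≠ 0 := e_two h2 K
  have hint : IsIntegral F θ := Algebra.IsIntegral.isIntegral θ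
  have hfr : finrank F K = (minpoly F θ).natDegree := by
    rw [← IntermediateField.adjoin.finrank hint, hθ, IntermediateField.finrank_top']
  have hdeg : 0 < (minpoly F θ).natDegree := minpoly.natDegree_pos hint
  have hspan : ∀ x : K, ∃ f : F[X], f.natDegree < finrank F K ∧ aeval θ f = x := by
    intro x
    have h1 : x ∈ IntermediateField.adjoin F {θ} := by
      rw [hθ]
      exact IntermediateField.mem_top
    have h3 : x ∈ Algebra.adjoin F {θ} := by
      rw [← IntermediateField.adjoin_simple_toSubalgebra_of_isAlgebraic hint.isAlgebraic]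
      exact h1
    rw [Algebra.adjoin_singleton_eq_range_aeval] at h3
    obtain ⟨p, hp⟩ := h3
    refine ⟨p %ₘ minpoly F θ, ?_, ?_⟩
    · rw [hfr]
      refine Polynomial.natDegree_modByMonic_lt _ (minpoly.monic hint) (fun hc => ?_)
      rw [hc, Polynomial.natDegree_one] at hdeg
      exact lt_irrefl _ hdeg
    · rw [← hp]
      have h4 := congrArg (aeval θ) (Polynomial.modByMonic_add_div p (minpoly F θ))
      rw [map_add, map_mul, minpoly.aeval, zero_mul, add_zero] at h4
      exact h4
  have hθ' : ∀ f : F[X], f ≠ 0 → f.natDegree < finrank F K → aeval θ f ≠ 0 := by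
    intro f hf hlt hc
    have h1 := Polynomial.natDegree_le_of_dvd (minpoly.dvd F θ hc) hf
    omega
  have hP : PLe (F := F) θ (m + 1) c := by
    refine bass_tate h2K θ (finrank F K) m c hc hθ' (fun L hL hL' => ?_) hG
    refine Z_of_HU h2 hu hL' (by rw [hL]; exact hum) (fun h => ?_)
    rw [h] at hL
    simp at hL
  exact slot_all h2K hu θ c m hspan hc hN hP L hL hL'

/-- (T2) the recursion step. -/
theorem step (h2 : (2 : F) ≠ 0) {u0 : ℕ} (hu : HU F u0) (m c n : ℕ) (hum : u0 < 2 ^ (m + 1))
    (hG : Good F m c)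
    (hn : ∀ k, 1 ≤ k → k ≤ n → c < k → (k - 1 - c) * (k - c) * u0 < 2 ^ (m + 1) * k) :
    Good F (m + 1) n := by
  intro K _ _ _ hK L hL hL'
  refine Z_of_sep h2 K (m + 1) (fun L hL hL' => ?_) L hL hL'
  have hle : finrank F (separableClosure F K) ≤ finrank F K :=
    LinearMap.finrank_le_finrank_of_injective (f := (separableClosure F K).val.toLinearMap)
      (separableClosure F K).val.injective
  have hpos : 0 < finrank F (separableClosure F K) := Module.finrank_pos
  rcases Nat.lt_or_ge c (finrank F (separableClosure F K)) with hc | hc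
  · obtain ⟨θ, hθ⟩ := Field.exists_primitive_element F (separableClosure F K)
    exact Z_of_simple h2 hu m c hum hG (separableClosure F K) θ hθ hc
      (hn _ hpos (hle.trans hK) hc) L hL hL'
  · cases L with
    | nil => simp at hL
    | cons a L =>
      have h1 : L.length = m := by
        rw [List.length_cons] at hL
        omega
      exact Z_cons_of_Z (e_two h2 _) (fun b hb => hL' b (List.mem_cons_of_mem _ hb))
        (hG (separableClosure F K) hc L h1 (fun b hb => hL' b (List.mem_cons_of_mem _ hb))) a

end Pool.Agent.Pfi
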