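import Mathlib

/-! The `u`-invariant and isotropy of Pfister forms. -/

namespace Pool.Agent.Pfi

/-- The `u`-invariant: the supremum of the dimensions of anisotropic (diagonal) forms. -/
noncomputable def uInv (F : Type*) [Field F] : ℕ∞ :=
  ⨆ (n : ℕ) (_ : ∃ a : Fin n → F, (∀ i, a i ≠ 0) ∧
    ∀ x : Fin n → F, ∑ i, a i * x i ^ 2 = 0 → x = 0), (n : ℕ∞)

/-- The Pfister form with slots `a i` (the sum over all subsets `S` of the set of slots) is
isotropic. -/
def PfisterIsotropic {E : Type*} [Field E] {m : ℕ} (a : Fin m → E) : Prop :=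
  ∃ x : Finset (Fin m) → E, x ≠ 0 ∧ ∑ S, (∏ i ∈ S, a i) * x S ^ 2 = 0

end Pool.Agent.Pfi
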