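import Pool.Agent.Pfi.Num
import Pool.Agent.Pfi.UDefs

/-! Conversion to sums of squares with weights, and the `u`-invariant. -/

namespace Pool.Agent.Pfi

universe u

theorem HU_of_uInv {F : Type*} [Field F] {u0 : ℕ} (h : uInv F ≤ u0) : HU F u0 := by
  intro k hk c
  classical
  by_cases hc : ∃ i, c i = 0
  · obtain ⟨i, hi⟩ := hc
    refine ⟨Pi.single i 1, ?_, ?_⟩
    · intro h0
      have := congrFun h0 i
      simp at this
    · apply Finset.sum_eq_zero
      intro j _
      by_cases hj : j = i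
      · subst hj; rw [hi]; simp
      · rw [Pi.single_eq_of_ne hj]; simp
  · push Not at hc
    by_contra hcon
    push Not at hcon
    have h1 : (k : ℕ∞) ≤ uInv F := by
      refine le_iSup₂_of_le k ⟨c, hc, ?_⟩ le_rfl
      intro x hx
      by_contra hx0
      exact hcon x hx0 hx
    have h2 := h1.trans h
    have : k ≤ u0 := by exact_mod_cast h2
    omega

theorem uInv_pos {F : Type*} [Field F] {u0 : ℕ} (h : uInv F = u0) : 1 ≤ u0 := by
  have h1 : ((1 : ℕ) : ℕ∞) ≤ uInv F := by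
    refine le_iSup₂_of_le 1 ⟨fun _ => 1, fun _ => one_ne_zero, ?_⟩ le_rfl
    intro x hx
    have : x 0 = 0 := by simpa using hx
    funext i
    rw [Subsingleton.elim i 0, this]; rfl
  rw [h] at h1
  exact_mod_cast h1

/-- If all binary forms `⟨1, -a⟩` are universal then `u ≤ 2`. -/
theorem uInv_le_two {K : Type u} [Field K]
    (h : ∀ L : List K, L.length = 2 → (∀ a ∈ L, a ≠ 0) → Z L) : uInv K ≤ 2 := by
  refine iSup₂_le ?_
  rintro n ⟨a, ha, han⟩
  by_contra hn
  have hn : 2 < n := by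
    by_contra h'
    apply hn
    push Not at h'
    exact_mod_cast h'
  obtain ⟨k, rfl⟩ : ∃ k, n = k + 3 := ⟨n - 3, by omega⟩
  obtain ⟨a0, ha0⟩ : ∃ b, b = a 0 := ⟨_, rfl⟩
  obtain ⟨a1, ha1⟩ : ∃ b, b = a (Fin.succ 0) := ⟨_, rfl⟩
  obtain ⟨a2, ha2⟩ : ∃ b, b = a (Fin.succ (Fin.succ 0)) := ⟨_, rfl⟩
  have h0 : a0 ≠ 0 := by rw [ha0]; exact ha _
  have h1 : a1 ≠ 0 := by rw [ha1]; exact ha _
  have h2 : a2 ≠ 0 := by rw [ha2]; exact ha _
  have hZ : Z [-a2 / a0, -a1 / a0] := by
    apply h _ rfl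
    intro x hx
    simp only [List.mem_cons, List.not_mem_nil, or_false] at hx
    rcases hx with rfl | rfl
    · exact div_ne_zero (neg_ne_zero.2 h2) h0
    · exact div_ne_zero (neg_ne_zero.2 h1) h0
  obtain ⟨x, y, ⟨s, hs⟩, ⟨t, ht⟩, hxy⟩ := hZ
  subst hs ht
  have e : a0 * s ^ 2 + a1 * t ^ 2 + a2 = 0 := by
    have : a0 * (-a2 / a0) = a0 * (s ^ 2 - -a1 / a0 * t ^ 2) := by rw [← hxy]
    field_simp at this
    linear_combination -this
  let x : Fin (k + 3) → K :=
    Fin.cons s (Fin.cons t (Fin.cons (1 : K) (fun _ => 0 : Fin k → K) : Fin (k + 1) → K) :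
      Fin (k + 2) → K)
  have hx : ∑ i, a i * x i ^ 2 = 0 := by
    rw [Fin.sum_univ_succ, Fin.sum_univ_succ, Fin.sum_univ_succ]
    simp only [x, Fin.cons_zero, Fin.cons_succ]
    rw [← ha0, ← ha1, ← ha2]
    simp
    linear_combination e
  have hz := han x hx
  have h3 : (1 : K) = 0 := congrFun hz (Fin.succ (Fin.succ 0))
  exact one_ne_zero h3

private def f_sum_g (m : ℕ) : Finset (Fin m) ⊕ Finset (Fin m) → Finset (Fin (m + 1)) :=
  Sum.elim (fun T => T.map (Fin.succEmb m)) (fun T => insert 0 (T.map (Fin.succEmb m)))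

private theorem f_sum_mem (m : ℕ) (T : Finset (Fin m)) (i : Fin m) :
    i.succ ∈ T.map (Fin.succEmb m) ↔ i ∈ T := by
  simp [Finset.mem_map, Fin.succ_inj]

private theorem f_sum_zero (m : ℕ) (T : Finset (Fin m)) :
    (0 : Fin (m + 1)) ∉ T.map (Fin.succEmb m) := by
  simp [Finset.mem_map, Fin.succ_ne_zero]

private theorem f_sum_bij (m : ℕ) : Function.Bijective (f_sum_g m) := by
  constructor
  · rintro (T | T) (T' | T') h
    · have h' : T.map (Fin.succEmb m) = T'.map (Fin.succEmb m) := h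
      rw [Finset.map_injective _ h']
    · exfalso
      have h' : T.map (Fin.succEmb m) = insert 0 (T'.map (Fin.succEmb m)) := h
      apply f_sum_zero m T
      rw [h']; simp
    · exfalso
      have h' : insert 0 (T.map (Fin.succEmb m)) = T'.map (Fin.succEmb m) := h
      apply f_sum_zero m T'
      rw [← h']; simp
    · have h' : insert 0 (T.map (Fin.succEmb m)) = insert 0 (T'.map (Fin.succEmb m)) := h
      have h3 : T.map (Fin.succEmb m) = T'.map (Fin.succEmb m) := by
        have := congrArg (fun S => Finset.erase S 0) h'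
        simpa [Finset.erase_insert (f_sum_zero m T), Finset.erase_insert (f_sum_zero m T')] using
          this
      rw [Finset.map_injective _ h3]
  · intro S
    by_cases h : (0 : Fin (m + 1)) ∈ S
    · refine ⟨Sum.inr (Finset.univ.filter fun i => i.succ ∈ S), ?_⟩
      change insert 0 ((Finset.univ.filter fun i : Fin m => i.succ ∈ S).map (Fin.succEmb m)) = S
      ext i
      refine Fin.cases ?_ (fun i => ?_) i
      · simp [h]
      · rw [Finset.mem_insert, f_sum_mem]
        simp [Fin.succ_ne_zero]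
    · refine ⟨Sum.inl (Finset.univ.filter fun i => i.succ ∈ S), ?_⟩
      change (Finset.univ.filter fun i : Fin m => i.succ ∈ S).map (Fin.succEmb m) = S
      ext i
      refine Fin.cases ?_ (fun i => ?_) i
      · exact iff_of_false (f_sum_zero m _) h
      · rw [f_sum_mem]
        simp

private theorem f_sum_split {K : Type*} [Field K] (m : ℕ) (f : Finset (Fin (m + 1)) → K) :
    ∑ S, f S = ∑ T : Finset (Fin m), f (T.map (Fin.succEmb m)) +
      ∑ T : Finset (Fin m), f (insert 0 (T.map (Fin.succEmb m))) := by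
  rw [← (f_sum_bij m).sum_comp f, Fintype.sum_sum_type]
  rfl

/-- the function on the subsets of `Fin (m + 1)` with the two given parts -/
private noncomputable def f_sum_x {K : Type*} (m : ℕ) (x y : Finset (Fin m) → K)
    (S : Finset (Fin (m + 1))) : K :=
  if (0 : Fin (m + 1)) ∈ S then y (Finset.univ.filter fun i => i.succ ∈ S)
  else x (Finset.univ.filter fun i => i.succ ∈ S)

private theorem f_sum_x1 {K : Type*} (m : ℕ) (x y : Finset (Fin m) → K) (T : Finset (Fin m)) :
    f_sum_x m x y (T.map (Fin.succEmb m)) = x T := by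
  unfold f_sum_x
  rw [if_neg (f_sum_zero m T)]
  congr 1
  ext i
  simp only [Finset.mem_filter, Finset.mem_univ, true_and]
  exact f_sum_mem m T i

private theorem f_sum_x2 {K : Type*} (m : ℕ) (x y : Finset (Fin m) → K) (T : Finset (Fin m)) :
    f_sum_x m x y (insert 0 (T.map (Fin.succEmb m))) = y T := by
  unfold f_sum_x
  rw [if_pos (Finset.mem_insert_self _ _)]
  congr 1
  ext i
  simp only [Finset.mem_filter, Finset.mem_univ, true_and, Finset.mem_insert, Fin.succ_ne_zero,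
    false_or]
  exact f_sum_mem m T i

private theorem f_sum_p1 {K : Type*} [Field K] (m : ℕ) (a : Fin (m + 1) → K) (T : Finset (Fin m)) :
    ∏ i ∈ T.map (Fin.succEmb m), a i = ∏ i ∈ T, a i.succ := by
  rw [Finset.prod_map]
  rfl

private theorem f_sum_p2 {K : Type*} [Field K] (m : ℕ) (a : Fin (m + 1) → K) (T : Finset (Fin m)) :
    ∏ i ∈ insert 0 (T.map (Fin.succEmb m)), a i = a 0 * ∏ i ∈ T, a i.succ := by
  rw [Finset.prod_insert (f_sum_zero m T), f_sum_p1]

theorem val_iff_sum {K : Type*} [Field K] (m : ℕ) (a : Fin m → K) (c : K) :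
    Val (List.ofFn a) c ↔
      ∃ x : Finset (Fin m) → K, ∑ S, (∏ i ∈ S, -a i) * x S ^ 2 = c := by
  induction m generalizing c with
  | zero =>
    have hu : (Finset.univ : Finset (Finset (Fin 0))) = {∅} := by
      ext S
      rw [Finset.mem_singleton]
      exact iff_of_true (Finset.mem_univ _) (Finset.eq_empty_of_isEmpty S)
    simp only [List.ofFn_zero, Val, hu, Finset.sum_singleton, Finset.prod_empty, one_mul]
    constructor
    · rintro ⟨x, rfl⟩
      exact ⟨fun _ => x, rfl⟩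
    · rintro ⟨x, rfl⟩
      exact ⟨x ∅, rfl⟩
  | succ m ih =>
    rw [List.ofFn_succ]
    constructor
    · rintro ⟨X, Y, hX, hY, rfl⟩
      obtain ⟨x, rfl⟩ := (ih (fun i => a i.succ) X).1 hX
      obtain ⟨y, rfl⟩ := (ih (fun i => a i.succ) Y).1 hY
      refine ⟨f_sum_x m x y, ?_⟩
      rw [f_sum_split]
      simp only [f_sum_x1, f_sum_x2]
      rw [sub_eq_add_neg, ← neg_mul, Finset.mul_sum]
      congr 1
      · refine Finset.sum_congr rfl fun T _ => ?_
        rw [f_sum_p1 m (fun i => -a i)]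
      · refine Finset.sum_congr rfl fun T _ => ?_
        rw [f_sum_p2 m (fun i => -a i)]
        ring
    · rintro ⟨x, rfl⟩
      refine ⟨∑ T : Finset (Fin m), (∏ i ∈ T, -a i.succ) * x (T.map (Fin.succEmb m)) ^ 2,
        ∑ T : Finset (Fin m), (∏ i ∈ T, -a i.succ) * x (insert 0 (T.map (Fin.succEmb m))) ^ 2,
        (ih (fun i => a i.succ) _).2 ⟨_, rfl⟩, (ih (fun i => a i.succ) _).2 ⟨_, rfl⟩, ?_⟩
      rw [f_sum_split, sub_eq_add_neg, ← neg_mul, Finset.mul_sum]
      congr 1
      · refine Finset.sum_congr rfl fun T _ => ?_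
        rw [f_sum_p1 m (fun i => -a i)]
      · refine Finset.sum_congr rfl fun T _ => ?_
        rw [f_sum_p2 m (fun i => -a i)]
        ring

/-- Isotropy in the form of a sum over all subsets of the slots. -/
theorem isotropic_of_Z {K : Type*} [Field K] (m : ℕ) (hm : 1 ≤ m) (a : Fin m → K)
    (h : Z (List.ofFn fun i => -a i)) :
    ∃ x : Finset (Fin m) → K, x ≠ 0 ∧ ∑ S, (∏ i ∈ S, a i) * x S ^ 2 = 0 := by
  obtain _ | m := m
  · omega
  classical
  rw [List.ofFn_succ] at h
  have h : Val (List.ofFn fun i : Fin m => -a i.succ) (-a 0) := h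
  obtain ⟨x, hx⟩ := (val_iff_sum m (fun i => -a i.succ) (-a 0)).1 h
  simp only [neg_neg] at hx
  refine ⟨f_sum_x m x (fun T => if T = ∅ then 1 else 0), ?_, ?_⟩
  · intro h0
    have h1 := congrFun h0 (insert 0 ((∅ : Finset (Fin m)).map (Fin.succEmb m)))
    rw [f_sum_x2, if_pos rfl] at h1
    exact one_ne_zero h1
  · rw [f_sum_split]
    simp only [f_sum_x1, f_sum_x2, f_sum_p1, f_sum_p2]
    rw [hx, Finset.sum_eq_single ∅]
    · simp
    · intro T _ hT
      rw [if_neg hT]; simp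
    · intro h; exact absurd (Finset.mem_univ _) h

/-- T1: `u(F) = 1` and `[E : F] ≤ 8` imply `u(E) ≤ 2`. -/
theorem degree_eight (F E : Type u) [Field F] [Field E] [Algebra F E] [FiniteDimensional F E]
    (h2 : (2 : F) ≠ 0) (hF : uInv F = 1) (hE : Module.finrank F E ≤ 8) : uInv E ≤ 2 := by
  have hu : HU F (2 ^ 0) := HU_of_uInv (by rw [hF]; simp)
  exact uInv_le_two fun L hL hL' => good_eight h2 0 hu E hE L hL hL'

/-- T3: Leep's bound halved for Pfister forms. -/
theorem pfister_quarter (ε : ℝ) (hε : 0 < ε) : ∃ n0 : ℕ, ∀ (F E : Type u) [Field F] [Field E]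
    [Algebra F E] [FiniteDimensional F E], (2 : F) ≠ 0 → ∀ u0 : ℕ, uInv F = u0 →
    n0 ≤ Module.finrank F E → ∀ m : ℕ, (1 / 4 + ε) * (Module.finrank F E * u0) ≤ 2 ^ m →
    ∀ a : Fin m → E, (∀ i, a i ≠ 0) →
    ∃ x : Finset (Fin m) → E, x ≠ 0 ∧ ∑ S, (∏ i ∈ S, a i) * x S ^ 2 = 0 := by
  -- `4 - 3 (3 / 4) ^ j ≥ 1 / (1 / 4 + ε)`
  obtain ⟨j, hj⟩ : ∃ j : ℕ, 3 * ((3 : ℝ) / 4) ^ j < 4 - 1 / (1 / 4 + ε) := by
    have h1 : 0 < 4 - 1 / (1 / 4 + ε) := by
      have : 1 / (1 / 4 + ε) < 4 := by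
        rw [div_lt_iff₀ (by positivity)]
        linarith
      linarith
    obtain ⟨j, hj⟩ := exists_pow_lt_of_lt_one (show 0 < (4 - 1 / (1 / 4 + ε)) / 3 by positivity)
      (show (3 : ℝ) / 4 < 1 by norm_num)
    exact ⟨j, by linarith⟩
  refine ⟨2 ^ (j + 8), ?_⟩
  intro F E _ _ _ _ h2 u0 hu0 hn m hm a ha
  have hHU : HU F u0 := HU_of_uInv hu0.le
  have hpos : 1 ≤ u0 := uInv_pos hu0
  have hpos' : (1 : ℝ) ≤ u0 := by exact_mod_cast hpos
  set n := Module.finrank F E with hnd
  have hn' : (2 : ℝ) ^ (j + 8) ≤ n := by exact_mod_cast hn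
  have hbig : (2 : ℝ) ^ (j + 6) * u0 ≤ 2 ^ m := by
    refine le_trans ?_ hm
    have e : (2 : ℝ) ^ (j + 6) = 1 / 4 * 2 ^ (j + 8) := by
      rw [show j + 8 = (j + 6) + 2 by omega, pow_add]; ring
    rw [e, mul_assoc]
    apply mul_le_mul (by linarith) _ (by positivity) (by positivity)
    exact mul_le_mul_of_nonneg_right hn' (by linarith)
  have hbigN : 2 ^ (j + 6) * u0 ≤ 2 ^ m := by exact_mod_cast hbig
  have hc : (n : ℝ) * u0 ≤ (4 - 3 * (3 / 4) ^ j) * 2 ^ m := by
    have h1 : (n : ℝ) * u0 ≤ 1 / (1 / 4 + ε) * 2 ^ m := by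
      rw [div_mul_eq_mul_div, one_mul, le_div_iff₀ (by positivity)]
      linarith
    refine h1.trans ?_
    apply mul_le_mul_of_nonneg_right _ (by positivity)
    linarith
  have hGood : Good F m n := good_num h2 hpos hHU j m n hbigN hc
  have hm1 : 1 ≤ m := by
    by_contra h
    have hm0 : m = 0 := by omega
    rw [hm0, pow_zero] at hbigN
    have h1 : 2 ^ (j + 6) * 1 ≤ 2 ^ (j + 6) * u0 := Nat.mul_le_mul_left _ hpos
    have h3 : 2 ^ 1 ≤ 2 ^ (j + 6) := Nat.pow_le_pow_right (by norm_num) (by omega)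
    omega
  apply isotropic_of_Z m hm1 a
  apply hGood E le_rfl
  · simp
  · intro b hb
    rw [List.mem_ofFn] at hb
    obtain ⟨i, rfl⟩ := hb
    exact neg_ne_zero.2 (ha i)

end Pool.Agent.Pfi
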