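import Pool.Agent.Pfi.Round

/-! Formal properties of `Val` and `Z` (paper proof, part (B)). -/

namespace Pool.Agent.Pfi

variable {K : Type*} [Field K]

theorem val_mul (h2 : (2 : K) ≠ 0) {l : List K} (hl : ∀ a ∈ l, a ≠ 0) {x y : K}
    (hx : Val l x) (hy : Val l y) : Val l (x * y) := by
  obtain ⟨V, iV, iM, iF, Q, hdim, hval, hround, huniv⟩ := exists_round h2 l hl
  by_cases hx0 : x = 0
  · rw [hx0, zero_mul, ← hx0]
    exact hx
  obtain ⟨g, hg⟩ := hround x hx0 hx
  obtain ⟨v, rfl⟩ := (hval y).1 hy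
  exact (hval _).2 ⟨g v, hg v⟩

theorem val_inv (h2 : (2 : K) ≠ 0) {l : List K} (hl : ∀ a ∈ l, a ≠ 0) {x : K}
    (hx : Val l x) : Val l x⁻¹ := by
  obtain ⟨V, iV, iM, iF, Q, hdim, hval, hround, huniv⟩ := exists_round h2 l hl
  by_cases hx0 : x = 0
  · rw [hx0, inv_zero, ← hx0]
    exact hx
  obtain ⟨g, hg⟩ := hround x hx0 hx
  have h1 : Val l 1 := by simpa using val_sq l (1 : K)
  obtain ⟨v, hv⟩ := (hval 1).1 h1
  refine (hval _).2 ⟨g.symm v, ?_⟩
  have h := hg (g.symm v)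
  rw [g.apply_symm_apply, hv] at h
  exact eq_inv_of_mul_eq_one_right h.symm

private theorem g_b_cons {l l' : List K} (a : K) (h : ∀ c, Val l c ↔ Val l' c) (c : K) :
    Val (a :: l) c ↔ Val (a :: l') c := by
  simp only [Val, h]

private theorem g_b_swap (a b : K) (l : List K) (c : K) :
    Val (a :: b :: l) c → Val (b :: a :: l) c := by
  rintro ⟨x, y, ⟨x1, x2, hx1, hx2, rfl⟩, ⟨y1, y2, hy1, hy2, rfl⟩, rfl⟩
  exact ⟨x1 - a * y1, x2 - a * y2, ⟨x1, y1, hx1, hy1, rfl⟩, ⟨x2, y2, hx2, hy2, rfl⟩, by ring⟩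

theorem val_perm {l l' : List K} (h : l.Perm l') (c : K) : Val l c ↔ Val l' c := by
  induction h generalizing c with
  | nil => exact Iff.rfl
  | cons a _ ih => exact g_b_cons a ih c
  | swap a b l => exact ⟨g_b_swap b a l c, g_b_swap a b l c⟩
  | trans _ _ ih1 ih2 => exact (ih1 c).trans (ih2 c)

/-- An isotropic Pfister form is universal. -/
theorem univ_of_Z (h2 : (2 : K) ≠ 0) {l : List K} (hl : ∀ a ∈ l, a ≠ 0) (h : Z l) (c : K) :
    Val l c := by
  obtain _ | ⟨a, l⟩ := l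
  · exact absurd h (by simp [Z])
  have h : Val l a := h
  have ha : a ≠ 0 := hl a (by simp)
  have h1 : Val l (((c - 1) / (2 * a)) ^ 2 * a) :=
    val_mul h2 (fun b hb => hl b (by simp [hb])) (val_sq _ _) h
  refine ⟨((c + 1) / 2) ^ 2, ((c - 1) / (2 * a)) ^ 2 * a, val_sq _ _, h1, ?_⟩
  field_simp
  ring

theorem Z_perm (h2 : (2 : K) ≠ 0) {l l' : List K} (hl : ∀ a ∈ l, a ≠ 0) (h : l.Perm l') :
    Z l ↔ Z l' := by
  induction h with
  | nil => exact Iff.rfl
  | cons a h _ => exact val_perm h a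
  | swap a b l =>
    have key : ∀ a b : K, a ≠ 0 → b ≠ 0 → (∀ c ∈ l, c ≠ 0) → Val (a :: l) b →
        Val (b :: l) a := by
      rintro a b ha hb hl ⟨x, y, hx, hy, hxy⟩
      by_cases hy0 : y = 0
      · subst hy0
        rw [mul_zero, sub_zero] at hxy
        subst hxy
        refine univ_of_Z h2 (l := b :: l) ?_ hx a
        intro c hc
        rcases List.mem_cons.1 hc with rfl | hc
        · exact hb
        · exact hl c hc
      · refine ⟨x * y⁻¹, y⁻¹, val_mul h2 hl hx (val_inv h2 hl hy), val_inv h2 hl hy, ?_⟩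
        rw [hxy]
        field_simp
        ring
    have hb : b ≠ 0 := hl b (by simp)
    have ha : a ≠ 0 := hl a (by simp)
    have hl' : ∀ c ∈ l, c ≠ 0 := fun c hc => hl c (by simp [hc])
    exact ⟨key a b ha hb hl', key b a hb ha hl'⟩
  | trans h1 _ ih1 ih2 =>
    exact (ih1 hl).trans (ih2 (fun a ha => hl a (h1.mem_iff.2 ha)))

theorem Z_steinberg (b : K) (l : List K) : Z ((1 - b) :: b :: l) := by
  have h1 : Val l 1 := by simpa using val_sq l (1 : K)
  exact ⟨1, 1, h1, h1, by ring⟩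

theorem Z_neg (b : K) (l : List K) : Z ((-b) :: b :: l) := by
  have h1 : Val l 1 := by simpa using val_sq l (1 : K)
  have h0 : Val l 0 := by simpa using val_sq l (0 : K)
  exact ⟨0, 1, h0, h1, by ring⟩

/-- If one slot list is isotropic, adding slots keeps it isotropic. -/
theorem Z_cons_of_Z (h2 : (2 : K) ≠ 0) {l : List K} (hl : ∀ a ∈ l, a ≠ 0) (h : Z l) (a : K) :
    Z (a :: l) :=
  univ_of_Z h2 hl h a

private theorem g_c_sq {l : List K} {x : K} (s : K) (h : Val l x) : Val l (s ^ 2 * x) := by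
  induction l generalizing x with
  | nil =>
    obtain ⟨y, rfl⟩ := h
    exact ⟨s * y, by ring⟩
  | cons a l ih =>
    obtain ⟨y, z, hy, hz, rfl⟩ := h
    exact ⟨s ^ 2 * y, s ^ 2 * z, ih hy, ih hz, by ring⟩

private theorem g_c_val {l : List K} (k : ℕ) {c : K}
    (h : Val (l.map (fun a => a ^ (2 * k + 1))) c) : Val l c := by
  induction l generalizing c with
  | nil => exact h
  | cons a l ih =>
    rw [List.map_cons] at h
    obtain ⟨x, y, hx, hy, rfl⟩ := h
    exact ⟨x, (a ^ k) ^ 2 * y, ih hx, g_c_sq _ (ih hy), by ring⟩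

/-- Powers with odd exponent do not change anything. -/
theorem Z_map_odd_pow (h2 : (2 : K) ≠ 0) {L : List K} (hL : ∀ a ∈ L, a ≠ 0) (k : ℕ)
    (h : Z (L.map (fun a => a ^ (2 * k + 1)))) : Z L := by
  obtain _ | ⟨a, l⟩ := L
  · exact h
  have h : Val (l.map (fun a => a ^ (2 * k + 1))) (a ^ (2 * k + 1)) := h
  have ha : a ≠ 0 := hL a (by simp)
  have h' := g_c_sq ((a ^ k)⁻¹) (g_c_val k h)
  have e : ((a ^ k)⁻¹) ^ 2 * a ^ (2 * k + 1) = a := by
    have : a ^ (2 * k + 1) = (a ^ k) ^ 2 * a := by ring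
    rw [this]
    field_simp
  rw [e] at h'
  exact h'

private theorem g_c_map {K' : Type*} [Field K'] (f : K →+* K') {l : List K} {c : K}
    (h : Val l c) : Val (l.map f) (f c) := by
  induction l generalizing c with
  | nil =>
    obtain ⟨x, rfl⟩ := h
    exact ⟨f x, by simp⟩
  | cons a l ih =>
    obtain ⟨x, y, hx, hy, rfl⟩ := h
    exact ⟨f x, f y, ih hx, ih hy, by simp⟩

/-- `Z` is preserved by field homomorphisms. -/
theorem Z_map {K' : Type*} [Field K'] (f : K →+* K') {L : List K} (h : Z L) :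
    Z (L.map f) := by
  obtain _ | ⟨a, l⟩ := L
  · exact h
  · exact g_c_map f h

end Pool.Agent.Pfi
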