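import Pool.Agent.Pfi.Defs

/-! Leep's lemma on systems of quadratic forms (paper proof, part (A)). -/

namespace Pool.Agent.Pfi

universe v

open Module

theorem one_form {F : Type*} [Field F] (h2 : (2 : F) ≠ 0) {u : ℕ} (hu : HU F u)
    {V : Type*} [AddCommGroup V] [Module F V] [FiniteDimensional F V] (Q : QuadraticForm F V)
    (h : u < finrank F V) : ∃ v : V, v ≠ 0 ∧ Q v = 0 := by
  have : Invertible (2 : F) := invertibleOfNonzero h2
  obtain ⟨w, ⟨e⟩⟩ := QuadraticForm.equivalent_weightedSumSquares Q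
  obtain ⟨x, hx, hx0⟩ := hu _ h w
  refine ⟨e.symm x, ?_, ?_⟩
  · intro h0
    apply hx
    have := congrArg e h0
    simpa using this
  · have h3 : Q (e.symm x) = QuadraticMap.weightedSumSquares F w x := e.symm.map_app x
    rw [h3, QuadraticMap.weightedSumSquares_apply]
    rw [← hx0]
    refine Finset.sum_congr rfl ?_
    intro i _
    rw [smul_eq_mul, pow_two]

theorem iso_subspace {F : Type*} [Field F] (h2 : (2 : F) ≠ 0) (r N : ℕ)
    (hN : ∀ (V : Type v) [AddCommGroup V] [Module F V] [FiniteDimensional F V]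
      (Q : Fin r → QuadraticForm F V), N < finrank F V → ∃ v : V, v ≠ 0 ∧ ∀ i, Q i v = 0)
    (l : ℕ) (V : Type v) [AddCommGroup V] [Module F V] [FiniteDimensional F V]
    (Q : Fin r → QuadraticForm F V) (h : N + l * (r + 1) < finrank F V) :
    ∃ W : Submodule F V, finrank F W = l + 1 ∧ ∀ w ∈ W, ∀ i, Q i w = 0 := by
  induction l with
  | zero =>
    obtain ⟨v, hv, hv0⟩ := hN V Q (by simpa using h)
    refine ⟨Submodule.span F {v}, ?_, ?_⟩
    · rw [finrank_span_singleton hv]
    · intro w hw i
      obtain ⟨a, rfl⟩ := Submodule.mem_span_singleton.1 hw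
      rw [QuadraticMap.map_smul, hv0 i, smul_zero]
  | succ l ih =>
    obtain ⟨W, hW, hW0⟩ := ih (by
      have : (l + 1) * (r + 1) = l * (r + 1) + (r + 1) := by ring
      omega)
    let Φ : V →ₗ[F] (Fin r → (W →ₗ[F] F)) :=
      LinearMap.pi fun i => (LinearMap.lcomp F F W.subtype) ∘ₗ (Q i).polarBilin
    have hΦ : ∀ (v : V) (i : Fin r) (w : W), Φ v i w = QuadraticMap.polar (Q i) v w :=
      fun v i w => rfl
    have hker : finrank F V ≤ finrank F (LinearMap.ker Φ) + r * (l + 1) := by
      have h1 := LinearMap.finrank_range_add_finrank_ker Φ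
      have h3 : finrank F (LinearMap.range Φ) ≤ r * (l + 1) := by
        refine (Submodule.finrank_le _).trans (le_of_eq ?_)
        rw [Module.finrank_pi_fintype]
        have : ∀ i : Fin r, finrank F (W →ₗ[F] F) = l + 1 := by
          intro i
          rw [Module.finrank_linearMap, finrank_self, mul_one, hW]
        rw [Finset.sum_congr rfl (fun i _ => this i)]
        simp
      omega
    obtain ⟨C0, hC0⟩ := Submodule.exists_isCompl W
    have hC0d : finrank F W + finrank F C0 = finrank F V := Submodule.finrank_add_eq_of_isCompl hC0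
    have hinf : finrank F V ≤ finrank F ↥(C0 ⊓ LinearMap.ker Φ) + (l + 1) + r * (l + 1) := by
      have h1 := Submodule.finrank_sup_add_finrank_inf_eq C0 (LinearMap.ker Φ)
      have h3 := Submodule.finrank_le (C0 ⊔ LinearMap.ker Φ)
      omega
    obtain ⟨v, hv, hv0⟩ := hN ↥(C0 ⊓ LinearMap.ker Φ)
      (fun i => (Q i).comp (C0 ⊓ LinearMap.ker Φ).subtype) (by
        have : (l + 1) * (r + 1) = (l + 1) + r * (l + 1) := by ring
        omega)
    have hv' : (v : V) ≠ 0 := fun h => hv (Subtype.ext h)
    have hvC : (v : V) ∈ C0 := v.2.1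
    have hvK : Φ (v : V) = 0 := v.2.2
    have hv0' : ∀ i, Q i (v : V) = 0 := hv0
    refine ⟨W ⊔ Submodule.span F {(v : V)}, ?_, ?_⟩
    · have h1 := Submodule.finrank_sup_add_finrank_inf_eq W (Submodule.span F {(v : V)})
      have h3 : W ⊓ Submodule.span F {(v : V)} = ⊥ := by
        rw [eq_bot_iff]
        intro x hx
        have hx2 : x ∈ C0 := by
          obtain ⟨a, rfl⟩ := Submodule.mem_span_singleton.1 hx.2
          exact C0.smul_mem a hvC
        have : x ∈ W ⊓ C0 := ⟨hx.1, hx2⟩
        rwa [hC0.inf_eq_bot] at this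
      rw [h3, finrank_bot, finrank_span_singleton hv', hW] at h1
      omega
    · intro x hx i
      obtain ⟨w, hw, y, hy, rfl⟩ := Submodule.mem_sup.1 hx
      obtain ⟨a, rfl⟩ := Submodule.mem_span_singleton.1 hy
      have hp : QuadraticMap.polar (Q i) w (v : V) = 0 := by
        rw [QuadraticMap.polar_comm]
        have := hΦ (v : V) i ⟨w, hw⟩
        rw [hvK] at this
        exact this.symm
      rw [QuadraticMap.map_add (Q i), hW0 w hw i, QuadraticMap.map_smul, hv0' i,
        QuadraticMap.polar_smul_right, hp]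
      simp

theorem leep {F : Type*} [Field F] (h2 : (2 : F) ≠ 0) {u : ℕ} (hu : HU F u) (r : ℕ)
    (V : Type v) [AddCommGroup V] [Module F V] [FiniteDimensional F V]
    (Q : Fin r → QuadraticForm F V) (h : r * (r + 1) * u < 2 * finrank F V) :
    ∃ v : V, v ≠ 0 ∧ ∀ i, Q i v = 0 := by
  induction r generalizing V with
  | zero =>
    have : 0 < finrank F V := by omega
    have : Nontrivial V := Module.nontrivial_of_finrank_pos this
    obtain ⟨v, hv⟩ := exists_ne (0 : V)
    exact ⟨v, hv, fun i => i.elim0⟩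
  | succ r ih =>
    -- `N = r (r + 1) u / 2`
    obtain ⟨N, hNe⟩ : ∃ N, r * (r + 1) * u = 2 * N := by
      have : Even (r * (r + 1)) := Nat.even_mul_succ_self r
      obtain ⟨k, hk⟩ := this
      exact ⟨k * u, by rw [hk]; ring⟩
    have hN : ∀ (V : Type v) [AddCommGroup V] [Module F V] [FiniteDimensional F V]
        (Q : Fin r → QuadraticForm F V), N < finrank F V → ∃ v : V, v ≠ 0 ∧ ∀ i, Q i v = 0 := by
      intro V _ _ _ Q hV
      exact ih V Q (by omega)
    obtain ⟨W, hW, hW0⟩ := iso_subspace h2 r N hN u V (fun i => Q i.castSucc) (by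
      have : (r + 1) * (r + 1 + 1) * u = r * (r + 1) * u + 2 * (u * (r + 1)) := by ring
      omega)
    obtain ⟨w, hw, hw0⟩ := one_form h2 hu ((Q (Fin.last r)).comp W.subtype) (by omega)
    refine ⟨w, fun h => hw (Subtype.ext h), ?_⟩
    intro i
    refine Fin.lastCases ?_ (fun j => ?_) i
    · exact hw0
    · exact hW0 w w.2 j

end Pool.Agent.Pfi
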