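import Pool.Agent.Pfi.Ext

/-! The numbers (paper proof, part (F)). -/

namespace Pool.Agent.Pfi

universe u

variable {F : Type u} [Field F]

theorem good_start (h2 : (2 : F) ≠ 0) {u0 : ℕ} (hu : HU F u0) (m n : ℕ) (h : n * u0 ≤ 2 ^ (m + 1))
    (hum : u0 < 2 ^ (m + 1)) : Good F (m + 1) n := by
  apply step h2 hu m 0 n hum
  · intro K _ _ _ hK
    exfalso
    have : 0 < Module.finrank F K := Module.finrank_pos
    omega
  · intro k hk1 hkn _
    have h1 : (k - 1) * u0 < 2 ^ (m + 1) := by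
      rcases Nat.eq_zero_or_pos u0 with h0 | h0
      · rw [h0, mul_zero]; positivity
      · have h3 : (k - 1) * u0 < n * u0 := Nat.mul_lt_mul_of_pos_right (by omega) h0
        omega
    calc (k - 1 - 0) * (k - 0) * u0 = (k - 1) * u0 * k := by
          rw [Nat.sub_zero, Nat.sub_zero]; ring
      _ < 2 ^ (m + 1) * k := Nat.mul_lt_mul_of_pos_right h1 (by omega)

theorem good_eight (h2 : (2 : F) ≠ 0) (k : ℕ) (hu : HU F (2 ^ k)) : Good F (k + 2) 8 := by
  have h1 : Good F (k + 1) 2 := by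
    apply good_start h2 hu k 2
    · rw [pow_succ]; linarith
    · exact Nat.pow_lt_pow_right (by norm_num) (by omega)
  apply step h2 hu (k + 1) 2 8 (Nat.pow_lt_pow_right (by norm_num) (by omega)) h1
  intro j hj1 hj8 hj2
  have e : 2 ^ (k + 1 + 1) * j = 4 * j * 2 ^ k := by
    rw [pow_succ, pow_succ]; ring
  rw [e]
  apply Nat.mul_lt_mul_of_pos_right _ (by positivity)
  interval_cases j <;> norm_num

private theorem n_num_ineq {δ M κ c : ℝ} (hδ0 : 0 < δ) (hδ3 : δ ≤ 3) (hM : 32 < δ * M)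
    (hκ : κ ≤ (4 - 3 / 4 * δ) * M) (hcκ : c + 1 ≤ κ)
    (hc1 : (4 - δ) * M / 2 < c + 1) : (κ - 1 - c) * (κ - c) < M * κ := by
  have hM0 : 0 < M := by
    by_contra h
    push Not at h
    nlinarith
  set t : ℝ := (4 - δ) * M / 2 with ht
  have h1 : 0 ≤ κ - 1 - c := by linarith
  have h2 : κ - 1 - c ≤ κ - t := by linarith
  have h3 : κ - c ≤ κ - t + 1 := by linarith
  have h4 : 0 ≤ κ - c := by linarith
  have ht0 : t < κ := by linarith
  have h5 : (κ - 1 - c) * (κ - c) ≤ (κ - t) * (κ - t + 1) := by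
    apply mul_le_mul h2 h3 h4 (by linarith)
  refine lt_of_le_of_lt h5 ?_
  -- convexity in `κ` between `t` and `(4 - 3 δ / 4) M`
  set κ1 : ℝ := (4 - 3 / 4 * δ) * M with hκ1
  -- at the right end
  have hw : κ1 - t = (2 - δ / 4) * M := by rw [hκ1, ht]; ring
  have hend : (κ1 - t) * (κ1 - t + 1) < M * κ1 := by
    rw [hw, hκ1]
    have : M * ((4 - 3 / 4 * δ) * M) - (2 - δ / 4) * M * ((2 - δ / 4) * M + 1) =
        M * ((δ / 4 - δ ^ 2 / 16) * M - (2 - δ / 4)) := by ring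
    have h6 : 0 < (δ / 4 - δ ^ 2 / 16) * M - (2 - δ / 4) := by
      have : δ ^ 2 ≤ 3 * δ := by nlinarith
      nlinarith
    nlinarith
  -- at the left end
  have hleft : (0 : ℝ) < M * t := by
    apply mul_pos hM0
    rw [ht]
    have : 0 < (4 - δ) * M := mul_pos (by linarith) hM0
    linarith
  -- `s = (κ - t) / (κ1 - t)`
  have hs : 0 < κ1 - t := by linarith
  have hx : 0 ≤ κ - t := by linarith
  have hx2 : κ - t ≤ κ1 - t := by linarith
  set x := κ - t with hxd
  set y := κ1 - t with hyd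
  have hkx : κ = x + t := by rw [hxd]; ring
  have hky : κ1 = y + t := by rw [hyd]; ring
  rw [hkx]
  rw [hky] at hend
  -- `x (x + 1) < M (x + t)` from `y (y + 1) < M (y + t)`, `0 ≤ x ≤ y`
  by_contra hcon
  push Not at hcon
  have h7 : y * (M * (x + t)) ≤ y * (x * (x + 1)) := mul_le_mul_of_nonneg_left hcon hs.le
  have h8 : x * (y * (y + 1)) ≤ x * (M * (y + t)) := mul_le_mul_of_nonneg_left hend.le hx
  have h9 : y * x * (x + 1) ≤ x * y * (y + 1) := by
    have := mul_nonneg (mul_nonneg hx hs.le) (sub_nonneg.2 hx2)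
    nlinarith
  -- `y M t ≤ x M t`, so `x = y`
  have h10 : (y - x) * (M * t) ≤ 0 := by nlinarith
  have h11 : y ≤ x := by
    by_contra h
    push Not at h
    have := mul_pos (sub_pos.2 h) hleft
    linarith
  have h12 : x = y := le_antisymm hx2 h11
  rw [h12] at hcon
  linarith

theorem good_num (h2 : (2 : F) ≠ 0) {u0 : ℕ} (hu0 : 1 ≤ u0) (hu : HU F u0) (j m c : ℕ)
    (hm : 2 ^ (j + 6) * u0 ≤ 2 ^ m) (hc : (c : ℝ) * u0 ≤ (4 - 3 * (3 / 4) ^ j) * 2 ^ m) :
    Good F m c := by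
  induction j generalizing m c with
  | zero =>
    obtain _ | m := m
    · exfalso
      have : 2 ^ (0 + 6) * 1 ≤ 2 ^ (0 + 6) * u0 := Nat.mul_le_mul_left _ hu0
      simp at hm
      omega
    · apply good_start h2 hu
      · have : (c : ℝ) * u0 ≤ 2 ^ (m + 1) := by
          refine hc.trans (le_of_eq ?_)
          norm_num
        exact_mod_cast this
      · have : 2 ^ (0 + 6) * u0 = 64 * u0 := by norm_num
        omega
  | succ j ih =>
    obtain _ | m := m
    · exfalso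
      have h1 : 2 ^ (j + 1 + 6) * 1 ≤ 2 ^ (j + 1 + 6) * u0 := Nat.mul_le_mul_left _ hu0
      have h3 : 2 ^ 1 ≤ 2 ^ (j + 1 + 6) := Nat.pow_le_pow_right (by norm_num) (by omega)
      simp only [pow_zero] at hm
      omega
    have hu0' : (0 : ℝ) < u0 := by exact_mod_cast hu0
    set δ : ℝ := 3 * (3 / 4) ^ j with hδ
    have hδ0 : 0 < δ := by positivity
    have hδ3 : δ ≤ 3 := by
      have : ((3 : ℝ) / 4) ^ j ≤ 1 := pow_le_one₀ (by norm_num) (by norm_num)
      linarith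
    have hm' : 2 ^ (j + 6) * u0 ≤ 2 ^ m := by
      have e1 : 2 ^ (j + 1 + 6) = 2 * 2 ^ (j + 6) := by
        rw [show j + 1 + 6 = (j + 6) + 1 by omega, pow_succ]; ring
      rw [e1, pow_succ 2 m] at hm
      have : 2 * (2 ^ (j + 6) * u0) ≤ 2 * 2 ^ m := by linarith
      omega
    set c' : ℕ := ⌊(4 - δ) * 2 ^ m / u0⌋₊ with hc'
    have hnn : 0 ≤ (4 - δ) * 2 ^ m / u0 := by
      apply div_nonneg _ hu0'.le
      apply mul_nonneg (by linarith) (by positivity)
    have hc'le : (c' : ℝ) * u0 ≤ (4 - δ) * 2 ^ m := by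
      have h := Nat.floor_le hnn
      rw [← hc'] at h
      rwa [le_div_iff₀ hu0'] at h
    have hGood : Good F m c' := ih m c' hm' hc'le
    have hc'lt : (4 - δ) * 2 ^ m / u0 < c' + 1 := Nat.lt_floor_add_one _
    have hum : u0 < 2 ^ (m + 1) := by
      have h3 : 1 * u0 ≤ 2 ^ (j + 6) * u0 := Nat.mul_le_mul_right _ Nat.one_le_two_pow
      have h4 : 2 ^ m < 2 ^ (m + 1) := Nat.pow_lt_pow_right (by norm_num) (by omega)
      omega
    apply step h2 hu m c' c hum hGood
    intro k hk1 hkc hck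
    -- real numbers
    set M : ℝ := 2 ^ (m + 1) / u0 with hM
    have hM0 : 0 < M := by positivity
    have hMbig : (2 : ℝ) ^ (j + 7) ≤ M := by
      rw [hM, le_div_iff₀ hu0']
      have : 2 ^ (j + 7) * u0 ≤ 2 ^ (m + 1) := hm
      exact_mod_cast this
    have h32 : 32 < δ * M := by
      have h3 : (3 * (3 / 4) ^ j) * (2 : ℝ) ^ (j + 7) = 384 * (3 / 2) ^ j := by
        rw [show j + 7 = j + 7 from rfl, pow_add]
        have : ((3 : ℝ) / 2) ^ j = (3 / 4) ^ j * 2 ^ j := by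
          rw [← mul_pow]; norm_num
        rw [this]
        ring
      have h4 : (1 : ℝ) ≤ (3 / 2) ^ j := one_le_pow₀ (by norm_num)
      have h5 : δ * (2 : ℝ) ^ (j + 7) ≤ δ * M := mul_le_mul_of_nonneg_left hMbig hδ0.le
      rw [hδ, h3, ← hδ] at h5
      linarith
    have hk : (k : ℝ) ≤ (4 - 3 / 4 * δ) * M := by
      have h3 : (k : ℝ) * u0 ≤ (4 - 3 * (3 / 4) ^ (j + 1)) * 2 ^ (m + 1) := by
        refine le_trans ?_ hc
        have : (k : ℝ) ≤ c := by exact_mod_cast hkc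
        exact mul_le_mul_of_nonneg_right this hu0'.le
      have h4 : (4 - 3 * (3 / 4 : ℝ) ^ (j + 1)) = 4 - 3 / 4 * δ := by
        rw [hδ, pow_succ]; ring
      rw [h4] at h3
      rw [hM, ← mul_div_assoc, le_div_iff₀ hu0']
      exact h3
    have hkc' : (c' : ℝ) + 1 ≤ k := by exact_mod_cast hck
    have hc1 : (4 - δ) * M / 2 < (c' : ℝ) + 1 := by
      refine lt_of_eq_of_lt ?_ hc'lt
      rw [hM, pow_succ]
      field_simp
    have key := n_num_ineq hδ0 hδ3 h32 hk hkc' hc1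
    have h6 : ((k - 1 - c' : ℕ) : ℝ) = (k : ℝ) - 1 - c' := by
      rw [Nat.cast_sub (by omega), Nat.cast_sub (by omega)]; simp
    have h7 : ((k - c' : ℕ) : ℝ) = (k : ℝ) - c' := by
      rw [Nat.cast_sub (by omega)]
    have h8 : ((k - 1 - c' : ℕ) : ℝ) * ((k - c' : ℕ) : ℝ) * u0 < 2 ^ (m + 1) * k := by
      rw [h6, h7]
      have h9 := mul_lt_mul_of_pos_right key hu0'
      have h10 : M * k * u0 = 2 ^ (m + 1) * k := by
        rw [hM]; field_simp
      rwa [h10] at h9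
    exact_mod_cast h8

end Pool.Agent.Pfi
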