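import Pool.Agent.Pfi.Defs

/-! Pfister forms are round (paper proof, part (B)). -/

namespace Pool.Agent.Pfi

universe u

open Module

theorem val_sq {K : Type*} [Field K] (l : List K) (x : K) : Val l (x ^ 2) := by
  induction l generalizing x with
  | nil => exact ⟨x, rfl⟩
  | cons a l ih =>
    have h0 := ih 0
    rw [zero_pow two_ne_zero] at h0
    exact ⟨x ^ 2, 0, ih x, h0, by simp⟩

/-- The Pfister form of `l` on a space of dimension `2 ^ l.length`: its values are `Val l`, it is
round, and if it is isotropic then it is universal. -/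
theorem exists_round {K : Type u} [Field K] (h2 : (2 : K) ≠ 0) (l : List K)
    (hl : ∀ a ∈ l, a ≠ 0) :
    ∃ (V : Type u) (_ : AddCommGroup V) (_ : Module K V) (_ : FiniteDimensional K V)
      (Q : QuadraticForm K V),
      finrank K V = 2 ^ l.length ∧ (∀ c, Val l c ↔ ∃ v, Q v = c) ∧
      (∀ c, c ≠ 0 → Val l c → ∃ g : V ≃ₗ[K] V, ∀ v, Q (g v) = c * Q v) ∧
      (∀ v, v ≠ 0 → Q v = 0 → ∀ c, Val l c) := by
  induction l with
  | nil =>
    refine ⟨K, inferInstance, inferInstance, inferInstance, QuadraticMap.sq, by simp, ?_, ?_, ?_⟩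
    · intro c
      constructor
      · rintro ⟨x, rfl⟩
        exact ⟨x, by simp [QuadraticMap.sq, pow_two]⟩
      · rintro ⟨x, rfl⟩
        exact ⟨x, by simp [QuadraticMap.sq, pow_two]⟩
    · rintro c hc ⟨x, rfl⟩
      have hx : x ≠ 0 := by rintro rfl; simp at hc
      refine ⟨LinearEquiv.smulOfNeZero K K x hx, ?_⟩
      intro v
      simp [QuadraticMap.sq]
      ring
    · intro v hv h
      exfalso
      apply hv
      simpa [QuadraticMap.sq] using h
  | cons a l ih =>
    have ha : a ≠ 0 := hl a (by simp)
    obtain ⟨V, iV, iM, iF, Q, hdim, hval, hround, huniv⟩ := ih (fun b hb => hl b (by simp [hb]))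
    have hQ' : ∀ w : V × V, (Q.prod ((-a) • Q)) w = Q w.1 - a * Q w.2 := by
      intro w
      simp
      ring
    refine ⟨V × V, inferInstance, inferInstance, inferInstance, Q.prod ((-a) • Q), ?_, ?_, ?_, ?_⟩
    · rw [Module.finrank_prod, hdim, List.length_cons, pow_succ]
      ring
    · intro c
      constructor
      · rintro ⟨x, y, hx, hy, rfl⟩
        obtain ⟨v, rfl⟩ := (hval x).1 hx
        obtain ⟨w, rfl⟩ := (hval y).1 hy
        exact ⟨(v, w), hQ' _⟩
      · rintro ⟨w, rfl⟩
        exact ⟨Q w.1, Q w.2, (hval _).2 ⟨_, rfl⟩, (hval _).2 ⟨_, rfl⟩, hQ' w⟩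
    · rintro c hc ⟨X, Y, hX, hY, rfl⟩
      by_cases hY0 : Y = 0
      · subst hY0
        rw [mul_zero, sub_zero] at hc ⊢
        obtain ⟨g, hg⟩ := hround X hc hX
        refine ⟨g.prodCongr g, ?_⟩
        intro v
        rw [hQ', hQ']
        simp only [LinearEquiv.prodCongr_apply, hg]
        ring
      obtain ⟨gY, hgY⟩ := hround Y hY0 hY
      by_cases hX0 : X = 0
      · subst hX0
        -- `(p, s) ↦ (a g s, g p)`
        let G : V × V →ₗ[K] V × V :=
          (a • ((gY : V →ₗ[K] V) ∘ₗ LinearMap.snd K V V)).prod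
            ((gY : V →ₗ[K] V) ∘ₗ LinearMap.fst K V V)
        have hG : ∀ w, G w = (a • gY w.2, gY w.1) := fun w => rfl
        have hinj : Function.Injective G := by
          rw [injective_iff_map_eq_zero]
          intro w hw
          rw [hG, Prod.mk_eq_zero] at hw
          have h1 : gY w.2 = 0 := (smul_eq_zero.1 hw.1).resolve_left ha
          have h3 : w.2 = 0 := by simpa using h1
          have h4 : w.1 = 0 := by simpa using hw.2
          exact Prod.ext h4 h3
        refine ⟨LinearEquiv.ofInjectiveEndo G hinj, ?_⟩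
        intro w
        rw [hQ', hQ', LinearEquiv.coe_ofInjectiveEndo, hG]
        simp only [QuadraticMap.map_smul, hgY, smul_eq_mul]
        ring
      · obtain ⟨gX, hgX⟩ := hround X hX0 hX
        -- the generic case
        let r : V × V →ₗ[K] V :=
          (((gY.trans gX).symm : V ≃ₗ[K] V) : V →ₗ[K] V) ∘ₗ LinearMap.snd K V V
        have hr : ∀ w : V × V, Q w.2 = X * Y * Q (r w) := by
          intro w
          have h : gX (gY (r w)) = w.2 := (gY.trans gX).apply_symm_apply w.2
          rw [← h, hgX, hgY]
          ring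
        have hr0 : ∀ w : V × V, r w = 0 → w.2 = 0 := by
          intro w hw
          have h : gX (gY (r w)) = w.2 := (gY.trans gX).apply_symm_apply w.2
          rw [← h, hw]
          simp
        let G : V × V →ₗ[K] V × V :=
          ((gX : V →ₗ[K] V) ∘ₗ (LinearMap.fst K V V + (a * Y) • r)).prod
            ((gY : V →ₗ[K] V) ∘ₗ (LinearMap.fst K V V + X • r))
        have hG : ∀ w, G w = (gX (w.1 + (a * Y) • r w), gY (w.1 + X • r w)) := fun w => rfl
        have hinj : Function.Injective G := by
          rw [injective_iff_map_eq_zero]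
          intro w hw
          rw [hG, Prod.mk_eq_zero] at hw
          have h1 : w.1 + (a * Y) • r w = 0 := (LinearEquiv.map_eq_zero_iff gX).1 hw.1
          have h3 : w.1 + X • r w = 0 := (LinearEquiv.map_eq_zero_iff gY).1 hw.2
          have h4 : (X - a * Y) • r w = 0 := by
            rw [sub_smul]
            calc X • r w - (a * Y) • r w = (w.1 + X • r w) - (w.1 + (a * Y) • r w) := by abel
              _ = 0 := by rw [h1, h3, sub_zero]
          have h5 : r w = 0 := (smul_eq_zero.1 h4).resolve_left hc
          have h6 := hr0 w h5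
          rw [h5, smul_zero, add_zero] at h3
          exact Prod.ext h3 h6
        refine ⟨LinearEquiv.ofInjectiveEndo G hinj, ?_⟩
        intro w
        rw [hQ', hQ', LinearEquiv.coe_ofInjectiveEndo, hG]
        simp only [hgX, hgY]
        rw [hr w, QuadraticMap.map_add Q w.1 ((a * Y) • r w),
          QuadraticMap.map_add Q w.1 (X • r w)]
        simp only [QuadraticMap.map_smul, QuadraticMap.polar_smul_right, smul_eq_mul]
        ring
    · intro w hw hw0 c
      rw [hQ'] at hw0
      have h0 : Val l 0 := by
        have := val_sq l (0 : K)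
        rwa [zero_pow two_ne_zero] at this
      by_cases hw2 : Q w.2 = 0
      · -- `Q` is isotropic
        rw [hw2, mul_zero, sub_zero] at hw0
        have hc : Val l c := by
          by_cases h1 : w.1 = 0
          · have h3 : w.2 ≠ 0 := fun h3 => hw (Prod.ext h1 h3)
            exact huniv w.2 h3 hw2 c
          · exact huniv w.1 h1 hw0 c
        exact ⟨c, 0, hc, h0, by simp⟩
      · -- `a` is a value
        obtain ⟨g, hg⟩ := hround (Q w.2) hw2 ((hval _).2 ⟨_, rfl⟩)
        have h3 : Q (g.symm w.1) = a := by
          have h := hg (g.symm w.1)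
          rw [g.apply_symm_apply] at h
          have h4 : Q w.1 = a * Q w.2 := sub_eq_zero.1 hw0
          rw [h4] at h
          have : Q w.2 * Q (g.symm w.1) = Q w.2 * a := by rw [← h]; ring
          exact mul_left_cancel₀ hw2 this
        -- `c = ((c + 1) / 2) ^ 2 - a * (a * ((c - 1) / (2 * a)) ^ 2)`
        refine ⟨((c + 1) / 2) ^ 2, ((c - 1) / (2 * a)) ^ 2 * a, val_sq _ _, ?_, ?_⟩
        · refine (hval _).2 ⟨((c - 1) / (2 * a)) • g.symm w.1, ?_⟩
          rw [QuadraticMap.map_smul, h3, smul_eq_mul]
          ring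
        · field_simp
          ring

end Pool.Agent.Pfi
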