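import Pool.Agent.Pfi.Leep
import Pool.Agent.Pfi.BT

/-! Slot reduction by Leep's lemma (paper proof, part (D)). -/

namespace Pool.Agent.Pfi

open Polynomial Module

universe u

/-- A Pfister form in more than `u` variables is isotropic if every form in more than `u` variables
is. -/
theorem Z_of_HU {K : Type u} [Field K] (h2 : (2 : K) ≠ 0) {u0 : ℕ} (hu : HU K u0) {L : List K}
    (hL : ∀ a ∈ L, a ≠ 0) (h : u0 < 2 ^ L.length) (h0 : L ≠ []) : Z L := by
  obtain _ | ⟨a, l⟩ := L
  · exact absurd rfl h0
  have ha : a ≠ 0 := hL a (by simp)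
  have hl : ∀ b ∈ l, b ≠ 0 := fun b hb => hL b (by simp [hb])
  obtain ⟨V, iV, iM, iF, Q, hdim, hval, hround, huniv⟩ := exists_round h2 l hl
  obtain ⟨w, hw, hw0⟩ := one_form h2 hu (Q.prod ((-a) • Q)) (by
    rw [Module.finrank_prod, hdim]
    have : 2 ^ (a :: l).length = 2 ^ l.length + 2 ^ l.length := by
      rw [List.length_cons, pow_succ]; ring
    omega)
  have hQ' : (Q.prod ((-a) • Q)) w = Q w.1 - a * Q w.2 := by
    simp
    ring
  rw [hQ'] at hw0
  change Val l a
  by_cases hw2 : Q w.2 = 0
  · rw [hw2, mul_zero, sub_zero] at hw0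
    by_cases h1 : w.1 = 0
    · have h3 : w.2 ≠ 0 := fun h3 => hw (Prod.ext h1 h3)
      exact huniv w.2 h3 hw2 a
    · exact huniv w.1 h1 hw0 a
  · have e : a = Q w.1 * (Q w.2)⁻¹ := by
      have h4 : Q w.1 = a * Q w.2 := sub_eq_zero.1 hw0
      rw [h4]
      field_simp
    rw [e]
    exact val_mul h2 hl ((hval _).2 ⟨_, rfl⟩) (val_inv h2 hl ((hval _).2 ⟨_, rfl⟩))

variable {F E : Type u} [Field F] [Field E] [Algebra F E] [FiniteDimensional F E]

/-- coordinates with respect to the powers of `θ` -/
private theorem s_one_coord (θ : E)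
    (hspan : ∀ x : E, ∃ f : F[X], f.natDegree < finrank F E ∧ aeval θ f = x) :
    ∃ co : Fin (finrank F E) → (E →ₗ[F] F), ∀ x : E, x = ∑ i, co i x • θ ^ (i : ℕ) := by
  classical
  let φ : (Fin (finrank F E) → F) →ₗ[F] E := Fintype.linearCombination F (fun i => θ ^ (i : ℕ))
  have hφ : ∀ a, φ a = ∑ i, a i • θ ^ (i : ℕ) := fun a => Fintype.linearCombination_apply F _ a
  have hs : Function.Surjective φ := by
    intro x
    obtain ⟨f, hf, rfl⟩ := hspan x
    refine ⟨fun i => f.coeff i, ?_⟩
    rw [hφ, aeval_eq_sum_range' hf, ← Fin.sum_univ_eq_sum_range (fun i => f.coeff i • θ ^ i)]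
  have hi : Function.Injective φ := by
    rw [LinearMap.injective_iff_surjective_of_finrank_eq_finrank (by simp)]
    exact hs
  let e := LinearEquiv.ofBijective φ ⟨hi, hs⟩
  refine ⟨fun i => (LinearMap.proj i).comp (e.symm : E →ₗ[F] (Fin (finrank F E) → F)), ?_⟩
  intro x
  have h := e.apply_symm_apply x
  have h' : φ (e.symm x) = x := h
  rw [hφ] at h'
  exact h'.symm

/-- One slot: `b` may be replaced by the value at `θ` of a polynomial of degree at most `c`. -/
theorem slot_one (h2 : (2 : E) ≠ 0) {u0 : ℕ} (hu : HU F u0) (θ : E) (c : ℕ)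
    (hspan : ∀ x : E, ∃ f : F[X], f.natDegree < finrank F E ∧ aeval θ f = x)
    (hc : c < finrank F E) (l : List E) (hl : ∀ a ∈ l, a ≠ 0) (b : E) (hb : b ≠ 0)
    (hN : (finrank F E - 1 - c) * (finrank F E - c) * u0 < 2 ^ (l.length + 1) * finrank F E) :
    (∀ x, Val l x) ∨ ∃ f : F[X], f.natDegree ≤ c ∧ aeval θ f ≠ 0 ∧
      (Val l (aeval θ f) → Val l b) := by
  classical
  have h2F : (2 : F) ≠ 0 := by
    intro h
    apply h2
    have : algebraMap F E 2 = 2 := map_ofNat _ 2
    rw [← this, h, map_zero]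
  obtain ⟨V, _, _, _, Q, hdim, hval, hround, huniv⟩ := exists_round h2 l hl
  let : Module F V := Module.compHom V (algebraMap F E)
  have : IsScalarTower F E V := IsScalarTower.of_compHom F E V
  have : FiniteDimensional F V := FiniteDimensional.trans F E V
  have hfr : finrank F V = finrank F E * 2 ^ l.length := by
    rw [← finrank_mul_finrank F E V, hdim]
  set n := finrank F E with hn
  obtain ⟨co, hco⟩ : ∃ co : Fin n → (E →ₗ[F] F), ∀ x : E, x = ∑ i, co i x • θ ^ (i : ℕ) :=
    s_one_coord (F := F) θ hspan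
  let qs : Fin (n - 1 - c) → QuadraticForm F V := fun j =>
    ((co ⟨c + 1 + j, by omega⟩).comp (LinearMap.mulLeft F b)).compQuadraticMap' Q
  have hqs : ∀ j v, qs j v = co ⟨c + 1 + j, by omega⟩ (b * Q v) := fun j v => rfl
  obtain ⟨v, hv0, hv⟩ := leep h2F hu (n - 1 - c) V qs (by
    rw [hfr]
    have e1 : n - 1 - c + 1 = n - c := by omega
    rw [e1]
    calc (n - 1 - c) * (n - c) * u0 < 2 ^ (l.length + 1) * n := hN
      _ = 2 * (n * 2 ^ l.length) := by ring)
  by_cases hx : Q v = 0
  · left
    exact huniv v hv0 hx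
  · right
    refine ⟨∑ i : Fin n, C (co i (b * Q v)) * X ^ (i : ℕ), ?_, ?_, ?_⟩
    · refine natDegree_sum_le_of_forall_le _ _ ?_
      intro i _
      by_cases hi : (i : ℕ) ≤ c
      · exact (natDegree_C_mul_X_pow_le _ _).trans hi
      · have h := hv ⟨i - (c + 1), by omega⟩
        rw [hqs] at h
        have e : (⟨c + 1 + (i - (c + 1) : ℕ), by omega⟩ : Fin n) = i := by
          ext; simp; omega
        simp only at h
        rw [e] at h
        rw [h]; simp
    · have : aeval θ (∑ i : Fin n, C (co i (b * Q v)) * X ^ (i : ℕ)) = b * Q v := by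
        conv_rhs => rw [hco (b * Q v)]
        simp [Algebra.smul_def]
      rw [this]
      exact mul_ne_zero hb hx
    · have : aeval θ (∑ i : Fin n, C (co i (b * Q v)) * X ^ (i : ℕ)) = b * Q v := by
        conv_rhs => rw [hco (b * Q v)]
        simp [Algebra.smul_def]
      rw [this]
      intro h
      have h3 : Val l (Q v) := (hval _).2 ⟨v, rfl⟩
      have h4 := val_mul h2 hl h (val_inv h2 hl h3)
      rwa [mul_inv_cancel_right₀ hx] at h4

/-- All slots. -/
theorem slot_all (h2 : (2 : E) ≠ 0) {u0 : ℕ} (hu : HU F u0) (θ : E) (c m : ℕ)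
    (hspan : ∀ x : E, ∃ f : F[X], f.natDegree < finrank F E ∧ aeval θ f = x)
    (hc : c < finrank F E)
    (hN : (finrank F E - 1 - c) * (finrank F E - c) * u0 < 2 ^ (m + 1) * finrank F E)
    (hP : PLe (F := F) θ (m + 1) c) (L : List E) (hL : L.length = m + 1)
    (hL' : ∀ a ∈ L, a ≠ 0) : Z L := by
  have main : ∀ (B : List E) (A : List F[X]), A.length + B.length = m + 1 →
      (∀ f ∈ A, f.natDegree ≤ c ∧ aeval θ f ≠ 0) → (∀ b ∈ B, b ≠ 0) →
      Z (A.map (fun f => aeval θ f) ++ B) := by
    intro B
    induction B with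
    | nil =>
      intro A hlen hA _
      rw [List.append_nil]
      refine hP A (by simpa using hlen) (fun f hf => ⟨?_, (hA f hf).1⟩)
      rintro rfl
      exact (hA 0 hf).2 (map_zero _)
    | cons b B ih =>
      intro A hlen hA hB
      have hb : b ≠ 0 := hB b (by simp)
      have hB' : ∀ b ∈ B, b ≠ 0 := fun x hx => hB x (by simp [hx])
      have hlen' : A.length + B.length = m := by
        rw [List.length_cons] at hlen; omega
      have hne : ∀ a ∈ A.map (fun f => aeval θ f) ++ B, a ≠ 0 := by
        intro a ha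
        rcases List.mem_append.1 ha with ha | ha
        · obtain ⟨f, hf, rfl⟩ := List.mem_map.1 ha
          exact (hA f hf).2
        · exact hB' a ha
      have hne' : ∀ a ∈ b :: (A.map (fun f => aeval θ f) ++ B), a ≠ 0 := by
        intro a ha
        rcases List.mem_cons.1 ha with rfl | ha
        · exact hb
        · exact hne a ha
      have hp : (b :: (A.map (fun f => aeval θ f) ++ B)).Perm
          (A.map (fun f => aeval θ f) ++ b :: B) := List.perm_middle.symm
      refine (Z_perm h2 hne' hp).1 ?_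
      change Val (A.map (fun f => aeval θ f) ++ B) b
      rcases slot_one h2 hu θ c hspan hc (A.map (fun f => aeval θ f) ++ B) hne b hb (by
        have : (A.map (fun f => aeval θ f) ++ B).length = m := by simpa using hlen'
        rw [this]
        exact hN) with h | ⟨f, hfd, hf0, hf⟩
      · exact h b
      · apply hf
        have h := ih (f :: A) (by rw [List.length_cons]; omega) (by
          intro g hg
          rcases List.mem_cons.1 hg with rfl | hg
          · exact ⟨hfd, hf0⟩
          · exact hA g hg) hB'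
        exact h
  have h := main L [] (by simpa using hL) (by simp) hL'
  simpa using h

end Pool.Agent.Pfi
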