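import Pool.Agent.Pfi.Fin

/-! Small degrees: Pfister forms of dimension more than `2 u(F)`. -/

namespace Pool.Agent.Pfi

universe u

variable {F : Type u} [Field F]

theorem Good_succ (h2 : (2 : F) ≠ 0) {m c : ℕ} (h : Good F m c) : Good F (m + 1) c := by
  intro K _ _ _ hK L hL hL'
  obtain _ | ⟨a, l⟩ := L
  · simp at hL
  have h2K : (2 : K) ≠ 0 := by
    intro h0
    apply h2
    have : algebraMap F K 2 = 0 := by rw [map_ofNat]; exact h0
    exact (map_eq_zero (algebraMap F K)).1 this
  have hl : ∀ b ∈ l, b ≠ 0 := fun b hb => hL' b (by simp [hb])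
  exact Z_cons_of_Z h2K hl (h K hK l (by simpa using hL) hl) a

theorem Good_mono (h2 : (2 : F) ≠ 0) {m m' c : ℕ} (hm : m ≤ m') (h : Good F m c) :
    Good F m' c := by
  induction m', hm using Nat.le_induction with
  | base => exact h
  | succ k _ ih => exact Good_succ h2 ih

/-- Degree at most `6`: Pfister forms of dimension greater than `2 u`. -/
theorem good_six (h2 : (2 : F) ≠ 0) {u0 : ℕ} (hu : HU F u0) (m : ℕ) (h : 2 * u0 < 2 ^ m)
    (hu0 : 1 ≤ u0) : Good F m 6 := by
  obtain _ | m := m
  · exfalso; rw [pow_zero] at h; omega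
  obtain _ | m := m
  · exfalso; norm_num at h; omega
  have h' : u0 < 2 ^ (m + 1) := by
    rw [pow_succ] at h; omega
  have h1 : Good F (m + 1) 2 := by
    apply step h2 hu m 0 2 h'
    · intro K _ _ _ hK
      exfalso
      have : 0 < Module.finrank F K := Module.finrank_pos
      omega
    · intro k hk1 hkn _
      interval_cases k
      · simp
      · simp only [Nat.sub_zero]
        omega
  apply step h2 hu (m + 1) 2 6 (by omega) h1
  intro k hk1 hk6 hk2
  interval_cases k
  · norm_num
  · norm_num; omega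
  · norm_num; omega
  · norm_num; omega

theorem small_degree (F E : Type u) [Field F] [Field E] [Algebra F E] [FiniteDimensional F E]
    (h2 : (2 : F) ≠ 0) (u0 : ℕ) (hu : uInv F = u0)
    (hn : Module.finrank F E ≤ 6 ∨ (Module.finrank F E ≤ 8 ∧ ∃ k : ℕ, u0 = 2 ^ k)) :
    (∀ m : ℕ, 2 * u0 < 2 ^ m → ∀ a : Fin m → E, (∀ i, a i ≠ 0) → PfisterIsotropic a) ∧
      (u0 = 1 → uInv E ≤ 2) := by
  have hHU : HU F u0 := HU_of_uInv hu.le
  have hpos : 1 ≤ u0 := uInv_pos hu
  refine ⟨?_, ?_⟩
  · intro m hm a ha
    have hGood : Good F m (Module.finrank F E) := by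
      rcases hn with hn | ⟨hn, k, rfl⟩
      · intro K _ _ _ hK
        exact good_six h2 hHU m hm hpos K (hK.trans hn)
      · have hk : k + 2 ≤ m := by
          have : 2 ^ (k + 1) < 2 ^ m := by rw [pow_succ]; omega
          have := (Nat.pow_lt_pow_iff_right (by norm_num)).1 this
          omega
        intro K _ _ _ hK
        exact Good_mono h2 hk (good_eight h2 k hHU) K (hK.trans hn)
    have hm1 : 1 ≤ m := by
      by_contra h
      have hm0 : m = 0 := by omega
      rw [hm0, pow_zero] at hm
      omega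
    apply isotropic_of_Z m hm1 a
    apply hGood E le_rfl
    · simp
    · intro b hb
      rw [List.mem_ofFn] at hb
      obtain ⟨i, rfl⟩ := hb
      exact neg_ne_zero.2 (ha i)
  · intro h1
    apply degree_eight F E h2 (by rw [hu, h1]; simp)
    rcases hn with hn | ⟨hn, -⟩
    · omega
    · exact hn

end Pool.Agent.Pfi
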